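import Pool.Agent.Helper84.P11.StD1

/-!
# Project P11: a fast kernel check for the coefficient sums `cS`, for list expressions with products

A term has a code (`cd`): `K + 16 w + 16^2 m + 16^3 g + 2^20 b` with `K` modulo 11 and `w, m, g, b` the exponents of its normal form. The code of a product of two terms is a polynomial function (`comb`) of the codes, so no integer
arithmetic is needed. The sums are packed in one number: `∑_t K(t) G(g) (1 + m X^169) Z(b) X^(338 w)`, `X = 2^30`, `G(g) = ∑_(i<13) C(g,i) X^i`, `Z(b) = ∑_(j<13) C(b,j) X^(13 j)` (binomials modulo 11).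
-/

set_option autoImplicit false
set_option exponentiation.threshold 200000

namespace Pool.Agent.Helper81.P11

open Pool.Agent.Helper84.P11

/-- Evaluates the natural number before the function is applied. -/
noncomputable def sq {α : Type} (n : ℕ) (f : ℕ → α) : α :=
  @Nat.rec (fun _ => α) (f 0) (fun k _ => f (Nat.succ k)) n

theorem sq_eq {α : Type} (n : ℕ) (f : ℕ → α) : sq n f = f n := by
  cases n <;> rfl

/-- Residue modulo `121`. -/
noncomputable def rd (z : ℤ) : ℕ :=
  @Int.rec (fun _ => ℕ) (fun n => Nat.mod n 121) (fun n => Nat.sub 120 (Nat.mod n 121)) z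

/-- Residue modulo `11`. -/
noncomputable def rk (z : ℤ) : ℕ :=
  @Int.rec (fun _ => ℕ) (fun n => Nat.mod n 11) (fun n => Nat.sub 10 (Nat.mod n 11)) z

/-- The digit base. -/
def X1 : ℕ := 1073741824
def X13 : ℕ := Nat.pow X1 13
def X169 : ℕ := Nat.pow X1 169
def X338 : ℕ := Nat.pow X1 338

def TG : ℕ := 3754875289679410484184136726989141657624061602114981352800512255230501684834589944578942009838527286417579213671100762460009198146462439829575985684005457024685320036084782062708601995705115002703507470368898806832556206835718652059064855940639076345863288753266531118859368817197691208524349861749677825865867044341432288783145984265969379519424188732924520420496256383691895354077365627307711291925464754542593530129254591688029330003942376927054758451027067208487883898609671856326986918243458605304422403989877535667492989893212685751058440029152610104492800974465794069913862307125291166839217521787465364170322218441499907800183756227257468459140817124371571080851241269612290652096360496868816612370881369900448177190955970532376239427453867698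076462368621620084916206877382103106872537768397169721056117334330704513976488303702711764075884690783275111804628063807416915097201428276396870642460942838822389723744598700430972170126192960480479365053829725182179438632802657959551466264050752151138153030203840461543446986752146525847175459116350789399265373407331091443283473713446043053199163790145391963959375569453371126982831752971797046853708788505016211419751286736495732299411504240887624995730254897110417514587387546792451418893882069047024753184910087704680327907333672205406878965439657392892834772355429278090028355617166674924329156155655465264042724699529478850246387414746036906534797719305018920002990613871373139874176740456585720865505995530021688624709305245726380428437907974577356389417442273741083614179395706840167243516923581062071224361504936022222535437688117717789732772536700745017946492914157320800317541273469618118014619289978142372894547696878597867178443981746318184452964717052714807831727017980192467096894542156856776561422685225348708410127063062707403938869919678089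268940223973715453779631914720797466637489822466866974707533683369048415501206281342633121482123228033285137965913587503071560422445520386288640483977845992158547874668454175184654261899667766847393559755908861283358131173669081045551281412311181022883086975368919107166650303975258305741117143334714835114091671748504254256365131111238691988500758387154512908498249632407551754900189364605901543077260349019695818935189833684228372182956783436284716834379002795541203607508368408480840334968570124492596382098793890406759928089588820375735456660778915577339873771218104042797745753102447067221121971630830569769074895602820352151965142727570601822474894581751993119530067295824368419988230389490765983665867131209694334740119822620686362575445912599412855865005947660937060840394370119581256754257244280712892925045636561303443775514669643003735236035085329409174756507330102031034173300247507519365422321953703892991229854604136390421642278974226924777139243139283996429231356008167009514344351295673138486227687284588023545591051147049554977887424971192270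168489164640106240304950111211286161121201002725315017710858196771821407854212804564742302538276533940047312411735169116763697272518780267015707941195353695571600162965775618769179034329875965133502258302026331626379220818783338235011832038038481755257523345872881350915734292590557412997801955230661189528657780011560495994463323493566498660152290023016951922777236286879187661852330535020029612561445115951819764379063169633266222782942559746055262689228460727661823514127855693764296855385121256716678551325089603812947462309599261136032778808381415287761531990420115591350920366658755729725109046063828445889194393970947227396114968376582853637911189328271089163416687814467929134633203114740464192952787222516502754327298681934906028142020071568248709639454146685243102155132457163005455152849922264552530979808086912903522713159126834179342997023676004957188657731713395953255626170983952577994901125554286408966960901888647174117399543878648141211707827935030630727044716185450588079876981250221503315661925395914158042050624370871993506533248643120645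623034690007179800339488483382541936823872502602679047144626143929343221962579105518544567867439835015862965495365766628569520930685411200809520224373752945303951161922022447884182090057415108323242198388255387077752905946463534165759962919773208346093760619706086101279878417318261950665429896405238489750805533252097397246665066792103593254824170872046056446590256439172372924667753077792041430620839331458524577111505494758156533189993330230671485409657580300863290339553859357676029098510406567764236755535078187726039375963900542685506610915216725909565119188157878123326667061714225899206664849464485703205756499735891054162273465048781920899769294365233678146804160108164403488125457306147248118616335767479759665400840341749682016996153526289594503902557552295527655837135291892149343959852199002413431655343167697590003422217613503110016580306346977652057942688253594248325451599197267372665977037942820898895220626188962866206713661650455453497912520801222924970860501667278342098150765920869735278131746299144963976932765068844113098756930960641462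067485858864881998486106548561839723866847470317406232577438590588639326836379715755436784377384593265159382962988094236646861768682991460420656014717274536618126824104159157329282883738654558535855614093446557137994353284718375465150740377883014087763321219616052095986126811197475611072643759013138955731178628769538149427957400063546536526555044735899702167629852982543208588123070219809650552134467030198600878456303672405585620671021237305699602574416140279699021691718880298706754756025118973646573980557478695430207439315459746363908551314732259761444992318333376759289457938156638257834059749193666153519559002235126482671529799455448144954376119030471515351577004017789590282786053260436655378723214159346564153383937221650795411170042656902842530520910531647847092291208398932382651049904707870626813112260986728805686563467530624831077915295040000317980963933928102298601896180264427142390202895529867907692786103005752142514780639667348354331668214926203516766983239549070005209881090014268164371016545097152860674540760052925091578048945040435080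739668297756655790939929629294882801774425762939180237547526367831418292359342985232686439383662362306581757782720343236910082444474290788056278508056735218414019529729983628905521767003354812036898691774473716560038078964832650823772415334533411237197760010188788277570325442321188141903549253372345978400711531169210904121305056370528698161894046954429686287643558070904171219105342184642577581416213659909519288719224125923388263072428641974848949886783048303391021686024351842455861759983382479193653020026507147225598925267341664629251978887598477161138953949336165833129511016026790943287457735480989932827350764606928465675943434167332567008613930252333917510256763534978585966373665348745184366360931765383895275791599984771769784629479931816914368009966695816566497075944407937644220731989641076327079220930958373128420289441214283588664058669599621672931500950977009267116818775253267166418578130804238648900791491065097003944551613210299718052707995784920233019292755771025230298868773789632777077881529894646892305435455995446914361406246257781624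972241602944921567552517717834417583428130368904998940603900061522720580288412028735276931057496191067835775247784651026195634590693931951027748667515862108494224801952402046669784238901829675522139534619362594801444965624394599846248939119839227338961765257723312745427375336911093916551376793009747342433488305175102247486414907814737875457086090717178729266216910658062032219499943963129728358081645456025207077884316525930100191098927952021443475450692809117042157320234343655945862937863053695630736630952387342871615060770925239757762001838385314397074111260683828032726745034606099637570471043704111013608098111534187839924883246719511304556477885150712795486869563508360492112652820607051070702364202502331883515713723290859473462145970924146410376678708445975397784786864655465921458061995350365725527324887123689643158567902113033271641689605919985472868866622191839820257685781039380940445985155288893255446243792715268991688541119830525350386731494595015780457922416888041040199562480313100142506827413985663214657436882349299040636022898509866259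674096929329427904472216424237266029492031454888255381737687365076443882531003586621995652469035549479694855335136937726735390351731735695144495787087486788196629953817426893446298297139673394223399256305832044020919623698226405562640944375086739578288523970080214222683440495677812872859744407263883442317145239712330423337654579782964923775648229300953197658860512306932375970513756482327927001119275284723633903165662129203285592852285736332528995652190531903735113339993554798704312409304059072356938352546728297177758292532371331567348978600192677780149501677679682954857991124482878598046936959365264933720195430751371066500423484426679564756292792426858354243881062100663804227796010999518709469464823596886954994147504825752379211254324182140958845535110861193606407939643638808395947154464796344423258590688951638897414579179431589353063182904523894494685385118119470263377863351761939910391381718567665078486146366702920794271868635108050463182028797727078120996736803930488027126998691821091620967714416414965297361777326697776899362361903916842396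272193372436878971539654763249955191490098395774468562055082906271238904121279140993820490502979550064064774297939524324007819457868472309780755801365826580646080388775687071511326058338075055320225449464019573359716667547938810043353648556291313930881495219640652989192645240215036251485026107922854700768185704259598740430428640390922126785590184430537342945542167380744232023685581823583550765590947613389015328904819693305045151107316281304229206105370605133528559534123970535827400067343233902913706244915304105285882138795112965631647234671742505655715167145460359380756722799039408256326326988411614801178650328646794199307522140769781755457757659472196228058099967843059254073032604197587474380875948054629166940582131071273730597922444368162217976591748256720604297737087518803054469250076398040308230355721973786287130609994074884417858387704922511553934792834293341834691928567895978018050374569351011738820545046734391379775506819819284892161593576291402361771036872002954718733838503578392856702320148421533918273064218319980253376386072800083275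591421357321840879332233141663508682349653003467764784868115824354835569626666336898963092801583797084130414271608164087111561735125590774422822336082336186814655120077141224113077161574135509676882782627960646711228998981253367672057723381301254964648565475197815206271643892387483048084653449271552227946913218766320929218495792752997006923230590582894245456631901219892107461532539347663865808281341420823146193868482094236805701084911431908237337640255884471537105792224029636135612902057427244983963593236523376862815238486871493862705753758823458778349774842940966679614802730884837094192968242722919499782105889399756739415280596358054106061666616123696383048334138461822393683277789594165202092103996282123694528599642008605402048193091400815162255025136959496248667461850705877689614856402989028341201349363403535309428747467584830267541084404063533869951111159501049935779147664812154292205362911990562464687266327590863499763522210943370724382483984555268567278224714153020207371820611934194369121013273375199833737914082930527360319370841520643379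867287533551300799583675968633010993013784712903030991260816223101492419500721662471021033399111819105910878630580911527860762065463386169244264084459709477589785305961050955228813328231951312298956276501106492143136879784128339283091149660458848381109436239543251472520706746447997364347048950987693140696053680291733508081860720574794051301127322297262989017021926635113559332518148984868006820427826412682865509400624126544770318872347134266856693576065756474975320631244395929235105334967037254537073944929194625059854653559201175113402534566981534626159892891193988360477903267698981421942608406568830042007687699692309844861532214800417709126388606599359783050437724033882507650856480374183718928353945059601179921491605059545819615481435931563033664099165601627704940665527247685754691368707361127734172448836666865521294053142730471517266329691771419532848069956916628102821197760074556260897918192847477784335252202352476988539920839911281760372368668678305766052801490228353289986543693517898846684174253637096332168335359366017938299687668956834812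156307656146106288538254963297996107692156204513719553450068371995075487641592146659670158298305172144417418792060743536461232698482327413294679897290424389189843271712424697892692376161238857499865702836421346621604860585298935148170852822605740995087080858476733124964886597244355860078183245274197444562577308954050908464377586580902613055398729920494176942954275203933177487379068270505298967363173553891615862962065076646421150056113069549169247581510980672097750916289968450091352273531346013884320772847885204212988116447289745306552300219542466985982693000504134617741539756675406659224584909061394098864530715925667885749091657023946220188133743301205722467426031702224627207831682046714645465905409318414947993249356565932712557437829299600870904193355093124890690949456400207906203281336230133365285736422636246994752539044650523391259208331833297974691024064128513588787844947287067753259635822112331956659876799387979590399897072234024743762878731236821302775067984860494639322635417519003368629216986276888817541607286233066685766636649107742380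561593397332686639604647229732056044575890634382291361251526262013698317984939422706149157446665881303248197236672305136341781038050635381102398374492956332574295572698271043238734350108675305786228647053624075408766181030634445809959266989727665601039444986377356290115432515443244411359569284196061403353268954478738139450893816889068140974619569452737043149238639269110048453734839464212293372630257000999852837815440126863692341642941203707959649477545443061760462325614253142412826853200368619111852639313823655063537848845676866268988422551824376738043683466851905364491624121979434473551897757855631633407292607279041373047923545743401083438140303228013477693292498894824935227302716832106542936420197814851681170045280717016924161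

def TR : ℕ := 28156668542663705699395604552789630613945485348486303918133975794772382997068457319277538218538986801890799193433722948229342701492565083224295071358328030240153667230577660635936018642135038704977115939633542580523296764763812882617446248148253888648773688214164504377628369033693880124545817770835552940890405185327454179868451217666785733416291732085392462612472627501483138666663620885967125776130082492042827918644649717326692961933021616018698295727081750972780954987523110679199219086335525161231548509259972104414464049548881923427245033845665474895133879072575988621875510181534661154724463233876894283868376297160904250914997409288167149936530031086524831285356571155178911894206722230750669054599618745234743605499398247625697970224487890207728909191174943400243544526537052026157827421982089374970995542143883104878568399529596135091230540177039698537625079131785208500368268679274091879653214873815999928565552206118802697945098942117463253383164809520164943100810150401007015593469673557692301891611891922532530369442484713793403676690772688880691960338577097445499836645906219957455640160789316359661039837135353857907786137622160984081974601696550553990567368768508322181477741111186121031210312194650296534416647551279493535896100564552002644755440732577165822202565832638745974669313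

def TK : ℕ := 71003470550695958873802998116267165668582201323259045615785047188953529968782484312394358024686090818013589693403487694328543964984809123120698320203479225004390703115929396212092748762960502940299466831142395484419879843893184835818637815357253070447472343928169137230180332149630652458491366666671062613468287346608776675360195111358169049471703797710034603692282688171597466307580178737559680794013252743312365173666284903356490109059636811277617701288190734250969519785180866986951939652089678562600159418999515904984775488302031578398654821619680513394865174317027086939864203509234474272214147115009724576692956713118920215981936866888567976767115358522065681446373237748762180287093249744971224506418340836345366027262409763953511863592355558807823513535108574607930519157805485962095941341150715508284064751056680751856989017768646824266790365394162875763358026909369415475291145736132026696741154474046139063201437665648220883946924924817870670290134738584812319224470685470778584142650072611493687780113292349684971088433236549817014742412078403981335118890864296592492739583421826588734919076171809065807229141075745870112118349046700955695080330556695842313144101773868393395861318757285641176441833349556032167563399101369602301945068033961468157622108064041006328697553623403736926855916924219693195900281726914165700514733646287902585145860773469473427188594207726252315801847725478282525709663704449023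

def Gt (g : ℕ) : ℕ := Nat.mod (Nat.shiftRight TG (Nat.mul 390 g)) X13
def Zt (b : ℕ) : ℕ := Nat.land (Nat.mul (Gt b) TR) TK
def wN (l : ℕ) : ℕ := Nat.mod (Nat.shiftRight 5924794302729 (Nat.mul 4 (Nat.mod l 11))) 16
def oN (w : ℕ) : ℕ := Nat.mod (Nat.shiftRight 530407742879272305647105 (Nat.mul 8 w)) 256
def mN (w : ℕ) : ℕ := Nat.mod (Nat.shiftRight 443960674591063430754305 (Nat.mul 8 w)) 256

/-- The code. -/
def mk (K w m g b : ℕ) : ℕ :=
  Nat.add K (Nat.add (Nat.mul 16 w) (Nat.add (Nat.mul 256 m) (Nat.add (Nat.mul 4096 g) (Nat.mul 1048576 b))))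
def fK (c : ℕ) : ℕ := Nat.mod c 16
def fw (c : ℕ) : ℕ := Nat.mod (Nat.shiftRight c 4) 16
def fm (c : ℕ) : ℕ := Nat.mod (Nat.shiftRight c 8) 16
def fg (c : ℕ) : ℕ := Nat.mod (Nat.shiftRight c 12) 256
def fb (c : ℕ) : ℕ := Nat.shiftRight c 20

/-- The code of a term with residues `A, B, C, D` modulo `121`, `K` modulo `11`. -/
noncomputable def acode (A B C D K : ℕ) : ℕ :=
  sq (Nat.mod (Nat.pow A 109) 121) fun I =>
  sq (Nat.mod (Nat.mul (Nat.add (Nat.mul A D) (Nat.mul 110 (Nat.mul B C))) (Nat.mul I I)) 121) fun l =>
  sq (wN l) fun w => sq (oN w) fun O =>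
    mk K w (Nat.div (Nat.mod (Nat.mul l O) 121) 11) (Nat.mod (Nat.mul (Nat.mul C I) O) 121) (Nat.mod (Nat.mul B I) 121)

/-- The code of a term. -/
noncomputable def tcode (t : Tm) : ℕ :=
  sq (rd t.2.1) fun A => sq (rd t.2.2.1) fun B => sq (rd t.2.2.2.1) fun C => sq (rd t.2.2.2.2) fun D =>
    sq (rk t.1) fun K => acode A B C D K

/-- The code, for the specification. -/
noncomputable def cd (t : Tm) : ℕ := mk (rk t.1) (wE t).val (mE t) (gE t) (bE t)

def ce (x y : ℕ) : ℕ := Nat.mod (Nat.mul (fb x) (mN (fw y))) 121
def cr (x y : ℕ) : ℕ := Nat.mod (ce x y) 11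
def c0 (y : ℕ) : ℕ := Nat.mod (fg y) 11
def cK (x y : ℕ) : ℕ := Nat.mod (Nat.mul (fK x) (fK y)) 11
def cw (x y : ℕ) : ℕ := Nat.mod (Nat.add (fw x) (fw y)) 10
def cm (x y : ℕ) : ℕ :=
  Nat.mod (Nat.add (Nat.add (fm x) (fm y)) (Nat.mul (Nat.sub 22 (Nat.mul 2 (cr x y))) (c0 y))) 11
def cg (x y : ℕ) : ℕ :=
  Nat.mod (Nat.add (Nat.mul (fg x) (oN (fw y))) (Nat.add (Nat.mul (Nat.add 1 (Nat.mul 11 (fm x))) (fg y))
    (Nat.mul (Nat.mul 11 (Nat.sub 11 (cr x y))) (Nat.mul (c0 y) (c0 y))))) 121
def cb (x y : ℕ) : ℕ :=
  Nat.mod (Nat.add (fb y) (Nat.add (Nat.mul (ce x y) (Nat.add 1 (Nat.mul 11 (fm y))))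
    (Nat.mul (Nat.mul 11 (Nat.sub 121 (Nat.mul (cr x y) (cr x y)))) (c0 y)))) 121

/-- The code of a product. -/
def comb (x y : ℕ) : ℕ := mk (cK x y) (cw x y) (cm x y) (cg x y) (cb x y)

/-- The block value. -/
def vF (K m g b : ℕ) : ℕ := Nat.mul K (Nat.mul (Gt g) (Nat.mul (Nat.add 1 (Nat.mul m X169)) (Zt b)))

/-- List expressions. -/
inductive Ex : Type where
  | lst (L : List Tm) : Ex
  | app (a b : Ex) : Ex
  | scl (c : ℤ) (a : Ex) : Ex
  | mul (a b : Ex) : Ex

/-- The list of an expression. -/
def Ex.toL : Ex → List Tm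
  | .lst L => L
  | .app a b => a.toL ++ b.toL
  | .scl c a => sclL c a.toL
  | .mul a b => mulL a.toL b.toL

/-- The number of terms. -/
noncomputable def Ex.cnt : Ex → ℕ :=
  @Ex.rec (fun _ => ℕ) (fun L => @List.rec Tm (fun _ => ℕ) 0 (fun _ _ ih => Nat.succ ih) L)
    (fun _ _ x y => Nat.add x y) (fun _ _ x => x) (fun _ _ x y => Nat.mul x y)

/-- All terms are good. -/
noncomputable def Ex.gd : Ex → Bool :=
  @Ex.rec (fun _ => Bool)
    (fun L => @List.rec Tm (fun _ => Bool) true (fun t _ ih => and (Nat.ble 1 (Nat.mul (rk t.2.1) (rk t.2.2.2.2))) ih) L)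
    (fun _ _ x y => and x y) (fun _ _ x => x) (fun _ _ x y => and x y)

noncomputable def lcd (L : List Tm) : (List ℕ → ℕ) → ℕ :=
  @List.rec Tm (fun _ => (List ℕ → ℕ) → ℕ) (fun k => k []) (fun t _ ih k => sq (tcode t) fun c => ih fun A => k (c :: A)) L

noncomputable def ap (A B : List ℕ) : List ℕ :=
  @List.rec ℕ (fun _ => List ℕ) B (fun h _ ih => h :: ih) A

noncomputable def mp (f : ℕ → ℕ) (B : List ℕ) : (List ℕ → ℕ) → ℕ :=
  @List.rec ℕ (fun _ => (List ℕ → ℕ) → ℕ) (fun k => k []) (fun y _ ih k => sq (f y) fun c => ih fun A => k (c :: A)) B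

noncomputable def pr (A B : List ℕ) : (List ℕ → ℕ) → ℕ :=
  @List.rec ℕ (fun _ => (List ℕ → ℕ) → ℕ) (fun k => k [])
    (fun x _ ih k => mp (comb x) B fun L => ih fun L' => k (ap L L')) A

def scC (r c : ℕ) : ℕ := mk (Nat.mod (Nat.mul r (fK c)) 11) (fw c) (fm c) (fg c) (fb c)

/-- The codes of an expression. -/
noncomputable def cods : Ex → (List ℕ → ℕ) → ℕ :=
  @Ex.rec (fun _ => (List ℕ → ℕ) → ℕ) (fun L k => lcd L k) (fun _ _ x y k => x fun A => y fun B => k (ap A B))
    (fun c _ x k => x fun A => mp (scC (rk c)) A k) (fun _ _ x y k => x fun A => y fun B => pr A B k)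

/-- Sum over the ten characters. -/
def S10 (f : ℕ → ℕ) : ℕ :=
  Nat.add (f 0) (Nat.add (f 1) (Nat.add (f 2) (Nat.add (f 3) (Nat.add (f 4) (Nat.add (f 5) (Nat.add (f 6)
    (Nat.add (f 7) (Nat.add (f 8) (f 9)))))))))

noncomputable def bsum (w : ℕ) (A : List ℕ) : ℕ :=
  @List.rec ℕ (fun _ => ℕ) 0 (fun c _ ih => @Bool.rec (fun _ => ℕ) ih
    (Nat.add (vF (fK c) (fm c) (fg c) (fb c)) ih) (Nat.beq (fw c) w)) A

noncomputable def lsum (A : List ℕ) : ℕ := S10 fun w => Nat.shiftLeft (bsum w A) (Nat.mul 10140 w)

noncomputable def fltc (w : ℕ) (B : List ℕ) : (List ℕ → ℕ) → ℕ :=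
  @List.rec ℕ (fun _ => (List ℕ → ℕ) → ℕ) (fun k => k [])
    (fun y _ ih k => @Bool.rec (fun _ => ℕ) (ih k) (ih fun L => k (y :: L)) (Nat.beq (fw y) w)) B

noncomputable def isum (x : ℕ) (B : List ℕ) : ℕ :=
  @List.rec ℕ (fun _ => ℕ) 0 (fun y _ ih => Nat.add (vF (cK x y) (cm x y) (cg x y) (cb x y)) ih) B

noncomputable def xsum (w : ℕ) (A B : List ℕ) : ℕ :=
  @List.rec ℕ (fun _ => ℕ) 0
    (fun x _ ih => Nat.add (Nat.shiftLeft (isum x B) (Nat.mul 10140 (Nat.mod (Nat.add (fw x) w) 10))) ih) A

noncomputable def psum (A B : List ℕ) : ℕ := S10 fun w => fltc w B fun B' => xsum w A B'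

/-- The sum of `r` times an expression. -/
noncomputable def sumE : Ex → ℕ → ℕ :=
  @Ex.rec (fun _ => ℕ → ℕ) (fun L r => lcd L fun A => mp (scC r) A lsum) (fun _ _ x y r => Nat.add (x r) (y r))
    (fun c _ x r => sq (Nat.mod (Nat.mul r (rk c)) 11) x)
    (fun a b _ _ r => cods a fun A => mp (scC r) A fun A' => cods b fun B => psum A' B)

/-- The digits. -/
def dg (N w k j i : ℕ) : ℕ :=
  Nat.mod (Nat.div (Nat.mod (Nat.div (Nat.mod (Nat.div (Nat.mod (Nat.div N (Nat.pow X338 w)) X338)
    (Nat.pow X169 k)) X169) (Nat.pow X13 j)) X13) (Nat.pow X1 i)) X1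

/-- The monomials. -/
def M13L : List (ℕ × ℕ × ℕ) := [(0, 0, 0), (0, 0, 1), (0, 0, 2), (0, 0, 3), (0, 0, 4), (0, 0, 5), (0, 0, 6), (0, 0, 7), (0, 0, 8), (0, 0, 9), (0, 0, 10), (0, 0, 11), (0, 0, 12), (0, 1, 0), (0, 1, 1), (0, 1, 2), (1, 0, 0), (1, 0, 1), (1, 0, 2), (1, 0, 3), (1, 0, 4), (1, 0, 5), (1, 0, 6), (1, 0, 7), (1, 0, 8), (1, 0, 9), (1, 0, 10), (1, 0, 11), (1, 1, 0), (1, 1, 1), (2, 0, 0), (2, 0, 1), (2, 0, 2), (2, 0, 3), (2, 0, 4), (2, 0, 5), (2, 0, 6), (2, 0, 7), (2, 0, 8), (2, 0, 9), (2, 0, 10), (2, 1, 0), (3, 0, 0), (3, 0, 1), (3, 0, 2), (3, 0, 3), (3, 0, 4), (3, 0, 5), (3, 0, 6), (3, 0, 7), (3, 0, 8), (3, 0, 9), (4, 0, 0), (4, 0, 1), (4, 0, 2), (4, 0, 3), (4, 0, 4), (4, 0, 5), (4, 0, 6), (4, 0, 7), (4, 0, 8), (5, 0, 0), (5, 0, 1), (5, 0, 2), (5, 0, 3), (5, 0, 4), (5, 0, 5), (5, 0, 6), (5, 0, 7), (6, 0, 0), (6, 0, 1), (6, 0, 2), (6, 0, 3), (6, 0, 4), (6, 0, 5), (6, 0, 6), (7, 0, 0), (7, 0, 1), (7, 0, 2), (7, 0, 3), (7, 0, 4), (7, 0, 5), (8, 0, 0), (8, 0, 1), (8, 0, 2), (8, 0, 3), (8, 0, 4), (9, 0, 0), (9, 0, 1), (9, 0, 2), (9, 0, 3),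 (10, 0, 0), (10, 0, 1), (10, 0, 2), (11, 0, 0), (11, 0, 1), (12, 0, 0)]

/-- Comparison of the digits. -/
noncomputable def chk (N : ℕ) (want : Fin 10 → ℕ → ℕ → ℕ → ℤ) : Bool :=
  ([0, 1, 2, 3, 4, 5, 6, 7, 8, 9] : List (Fin 10)).all fun w =>
    M13L.all fun t => Nat.beq (Nat.mod (dg N w.val t.2.1 t.2.2 t.1) 11) (rk (want w t.1 t.2.1 t.2.2))

/-- The check. -/
noncomputable def fastE (e : Ex) (want : Fin 10 → ℕ → ℕ → ℕ → ℤ) : Bool :=
  and (and e.gd (Nat.ble e.cnt 65536)) (sq (sumE e 1) fun N => chk N want)

/-! ### Residues -/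

theorem rd_eq (z : ℤ) : ((rd z : ℕ) : ℤ) = z % 121 := by
  cases z with
  | ofNat n =>
    change (((n % 121 : ℕ)) : ℤ) = (n : ℤ) % 121
    omega
  | negSucc n =>
    change (((120 - n % 121 : ℕ)) : ℤ) = Int.negSucc n % 121
    rw [Int.negSucc_eq]
    omega

theorem rk_eq (z : ℤ) : ((rk z : ℕ) : ℤ) = z % 11 := by
  cases z with
  | ofNat n =>
    change (((n % 11 : ℕ)) : ℤ) = (n : ℤ) % 11
    omega
  | negSucc n =>
    change (((10 - n % 11 : ℕ)) : ℤ) = Int.negSucc n % 11
    rw [Int.negSucc_eq]
    omega

theorem rk_lt (z : ℤ) : rk z < 11 := by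
  have h := rk_eq z
  have := Int.emod_lt_of_pos z (by norm_num : (0 : ℤ) < 11)
  omega

theorem rd_me (z : ℤ) : ((rd z : ℕ) : ℤ) ≡ z [ZMOD 121] := by
  rw [rd_eq]
  exact Int.mod_modEq z 121

/-! ### Ranges -/

private theorem toNat_lt {z : ℤ} {n : ℕ} (h1 : z < n) (h2 : 0 < n) : z.toNat < n := by omega

theorem bE_lt (t : Tm) : bE t < 121 := by
  unfold bE
  have := Int.emod_lt_of_pos (t.2.2.1 * aI t) (by norm_num : (0 : ℤ) < 121)
  omega

theorem gE_lt (t : Tm) : gE t < 121 := by
  unfold gE
  have := Int.emod_lt_of_pos (t.2.2.2.1 * aI t * oi10 (wE t)) (by norm_num : (0 : ℤ) < 121)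
  omega

theorem mE_lt (t : Tm) : mE t < 11 := by
  unfold mE
  have := Int.emod_lt_of_pos (lE t * oi10 (wE t)) (by norm_num : (0 : ℤ) < 121)
  omega

/-! ### Fields -/

theorem fK_mk {K w m g b : ℕ} (hK : K < 16) : fK (mk K w m g b) = K := by
  show (K + (16 * w + (256 * m + (4096 * g + 1048576 * b)))) % 16 = K
  omega

theorem fw_mk {K w m g b : ℕ} (hK : K < 16) (hw : w < 16) : fw (mk K w m g b) = w := by
  show (K + (16 * w + (256 * m + (4096 * g + 1048576 * b)))) >>> 4 % 16 = w
  rw [Nat.shiftRight_eq_div_pow]
  omega

theorem fm_mk {K w m g b : ℕ} (hK : K < 16) (hw : w < 16) (hm : m < 16) : fm (mk K w m g b) = m := by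
  show (K + (16 * w + (256 * m + (4096 * g + 1048576 * b)))) >>> 8 % 16 = m
  rw [Nat.shiftRight_eq_div_pow]
  omega

theorem fg_mk {K w m g b : ℕ} (hK : K < 16) (hw : w < 16) (hm : m < 16) (hg : g < 256) :
    fg (mk K w m g b) = g := by
  show (K + (16 * w + (256 * m + (4096 * g + 1048576 * b)))) >>> 12 % 256 = g
  rw [Nat.shiftRight_eq_div_pow]
  omega

theorem fb_mk {K w m g b : ℕ} (hK : K < 16) (hw : w < 16) (hm : m < 16) (hg : g < 256) :
    fb (mk K w m g b) = b := by
  show (K + (16 * w + (256 * m + (4096 * g + 1048576 * b)))) >>> 20 = b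
  rw [Nat.shiftRight_eq_div_pow]
  omega

theorem fK_cd (t : Tm) : fK (cd t) = rk t.1 := fK_mk (by have := rk_lt t.1; omega)
theorem fw_cd (t : Tm) : fw (cd t) = (wE t).val :=
  fw_mk (by have := rk_lt t.1; omega) (by have := (wE t).isLt; omega)
theorem fm_cd (t : Tm) : fm (cd t) = mE t :=
  fm_mk (by have := rk_lt t.1; omega) (by have := (wE t).isLt; omega) (by have := mE_lt t; omega)
theorem fg_cd (t : Tm) : fg (cd t) = gE t :=
  fg_mk (by have := rk_lt t.1; omega) (by have := (wE t).isLt; omega) (by have := mE_lt t; omega)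
    (by have := gE_lt t; omega)
theorem fb_cd (t : Tm) : fb (cd t) = bE t :=
  fb_mk (by have := rk_lt t.1; omega) (by have := (wE t).isLt; omega) (by have := mE_lt t; omega)
    (by have := gE_lt t; omega)

/-! ### The code of a term -/

private noncomputable def cI (t : Tm) : ℕ := rd t.2.1 ^ 109 % 121
private noncomputable def cl (t : Tm) : ℕ :=
  (rd t.2.1 * rd t.2.2.2.2 + 110 * (rd t.2.2.1 * rd t.2.2.2.1)) * (cI t * cI t) % 121

private theorem cI_eq (t : Tm) : ((cI t : ℕ) : ℤ) = aI t := by
  unfold cI aI
  push_cast
  exact (rd_me t.2.1).pow 109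

private theorem cl_eq (t : Tm) : ((cl t : ℕ) : ℤ) = lE t := by
  unfold cl lE
  push_cast
  rw [cI_eq, ← pow_two]
  have h1 : (((rd t.2.1 : ℕ) : ℤ) * ((rd t.2.2.2.2 : ℕ) : ℤ) +
      110 * (((rd t.2.2.1 : ℕ) : ℤ) * ((rd t.2.2.2.1 : ℕ) : ℤ))) ≡
      t.2.1 * t.2.2.2.2 + (-11) * (t.2.2.1 * t.2.2.2.1) [ZMOD 121] :=
    ((rd_me _).mul (rd_me _)).add (Int.ModEq.mul (by decide) ((rd_me _).mul (rd_me _)))
  have h2 := h1.mul (Int.ModEq.refl (aI t ^ 2))
  have e : t.2.1 * t.2.2.2.2 + (-11) * (t.2.2.1 * t.2.2.2.1) =
      t.2.1 * t.2.2.2.2 - 11 * t.2.2.1 * t.2.2.2.1 := by ring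
  rw [e] at h2
  exact h2

private theorem wN_eq (t : Tm) : wN (cl t) = (wE t).val := by
  have h5 : cl t % 11 < 11 := Nat.mod_lt _ (by norm_num)
  unfold wE
  rw [← cl_eq]
  have hN : wN (cl t) = Nat.mod (Nat.shiftRight 5924794302729 (Nat.mul 4 (cl t % 11))) 16 := rfl
  rw [hN]
  generalize hr : cl t % 11 = r at h5 ⊢
  have e : ((cl t : ℕ) : ℤ) % 11 = r := by omega
  rw [e]
  interval_cases r <;> decide

private theorem oN_eq : ∀ w : Fin 10, ((oN w.val : ℕ) : ℤ) = oi10 w := by decide

private theorem gE_eq (t : Tm) : rd t.2.2.2.1 * cI t * oN (wE t).val % 121 = gE t := by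
  unfold gE
  have h : ((rd t.2.2.2.1 * cI t * oN (wE t).val % 121 : ℕ) : ℤ) =
      (t.2.2.2.1 * aI t * oi10 (wE t)) % 121 := by
    push_cast
    rw [cI_eq, oN_eq]
    exact ((rd_me _).mul (Int.ModEq.refl _)).mul (Int.ModEq.refl _)
  rw [← h, Int.toNat_natCast]

private theorem bE_eq (t : Tm) : rd t.2.2.1 * cI t % 121 = bE t := by
  unfold bE
  have h : ((rd t.2.2.1 * cI t % 121 : ℕ) : ℤ) = (t.2.2.1 * aI t) % 121 := by
    push_cast
    rw [cI_eq]
    exact (rd_me _).mul (Int.ModEq.refl _)
  rw [← h, Int.toNat_natCast]

private theorem mE_eq (t : Tm) : cl t * oN (wE t).val % 121 / 11 = mE t := by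
  unfold mE
  have h : ((cl t * oN (wE t).val % 121 / 11 : ℕ) : ℤ) = (lE t * oi10 (wE t)) % 121 / 11 := by
    push_cast
    rw [cl_eq, oN_eq]
  rw [← h, Int.toNat_natCast]

theorem tcode_eq (t : Tm) : tcode t = cd t := by
  have h : tcode t = mk (rk t.1) (wN (cl t)) (cl t * oN (wN (cl t)) % 121 / 11)
      (rd t.2.2.2.1 * cI t * oN (wN (cl t)) % 121) (rd t.2.2.1 * cI t % 121) := by
    unfold tcode acode
    simp only [sq_eq]
    rfl
  rw [h, wN_eq, gE_eq, mE_eq, bE_eq]
  rfl

/-! ### The code of a product -/

private theorem om_oi : ∀ w : Fin 10, ((om10 w : ℤ) : ZMod 121) * ((oi10 w : ℤ) : ZMod 121) = 1 := by decide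

private theorem mN_eq : ∀ w : Fin 10, ((mN w.val : ℕ) : ZMod 121) = ((om10 w : ℤ) : ZMod 121) := by decide

private theorem oN_eq' : ∀ w : Fin 10, ((oN w.val : ℕ) : ZMod 121) = ((oi10 w : ℤ) : ZMod 121) := by decide

private theorem om_add : ∀ w w' : Fin 10, ((om10 ⟨(w.val + w'.val) % 10, Nat.mod_lt _ (by norm_num)⟩ : ℤ) : ZMod 121) =
    ((om10 w : ℤ) : ZMod 121) * ((om10 w' : ℤ) : ZMod 121) := by decide

private theorem tot121 : Nat.totient 121 = 110 := by decide +kernel

/-- a unit -/
private theorem unit_of {a : ℤ} (h : a % 11 ≠ 0) : IsUnit ((a : ℤ) : ZMod 121) := by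
  rw [ZMod.coe_int_isUnit_iff_isCoprime]
  have h11 : IsCoprime (11 : ℤ) a := by
    rw [Int.isCoprime_iff_gcd_eq_one]
    have hp : Nat.Prime 11 := by norm_num
    have : ¬ (11 : ℕ) ∣ a.natAbs := by omega
    have h2 := (Nat.Prime.coprime_iff_not_dvd hp).2 this
    exact h2
  have : ((121 : ℕ) : ℤ) = 11 * 11 := by norm_num
  rw [this]
  exact h11.mul_left h11

private theorem aI_mul {t : Tm} (h : t.2.1 % 11 ≠ 0) :
    ((t.2.1 : ℤ) : ZMod 121) * ((aI t : ℤ) : ZMod 121) = 1 := by
  obtain ⟨u, hu⟩ := unit_of h
  have e : ((aI t : ℤ) : ZMod 121) = ((t.2.1 : ℤ) : ZMod 121) ^ 109 := by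
    unfold aI
    have := ZMod.intCast_mod (t.2.1 ^ 109) 121
    push_cast at this ⊢
    exact this
  rw [e, ← pow_succ', ← hu, ← Units.val_pow_eq_pow_val]
  have := ZMod.pow_totient u
  rw [tot121] at this
  rw [this, Units.val_one]

private theorem val_of {z : ℤ} {n : ℕ} (hn : n < 121) (h : ((z : ℤ) : ZMod 121) = (n : ZMod 121)) :
    (z % 121).toNat = n := by
  have h' : ((z : ℤ) : ZMod 121) = ((n : ℤ) : ZMod 121) := by rw [h]; norm_cast
  have h2 := (ZMod.intCast_eq_intCast_iff_dvd_sub z (n : ℤ) 121).1 h'
  push_cast at h2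
  omega

/-- the normal form of a good term -/
private theorem nf_of {t : Tm} (h : Gd t) :
    ((t.2.2.1 : ℤ) : ZMod 121) = (bE t : ZMod 121) * ((t.2.1 : ℤ) : ZMod 121) ∧
    ((t.2.2.2.1 : ℤ) : ZMod 121) = (gE t : ZMod 121) * ((om10 (wE t) : ℤ) : ZMod 121) * ((t.2.1 : ℤ) : ZMod 121) ∧
    ((t.2.2.2.2 : ℤ) : ZMod 121) = (1 + 11 * ((mE t : ZMod 121) + (gE t : ZMod 121) * (bE t : ZMod 121))) *
      ((om10 (wE t) : ℤ) : ZMod 121) * ((t.2.1 : ℤ) : ZMod 121) := by
  obtain ⟨ha, hd⟩ := h
  have hI := aI_mul ha
  have e1 : ((bE t : ℕ) : ZMod 121) = ((t.2.2.1 : ℤ) : ZMod 121) * ((aI t : ℤ) : ZMod 121) := by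
    have h0 : 0 ≤ (t.2.2.1 * aI t) % 121 := Int.emod_nonneg _ (by norm_num)
    have h1 : ((bE t : ℕ) : ℤ) = (t.2.2.1 * aI t) % 121 := by unfold bE; omega
    have h2 : ((bE t : ℕ) : ZMod 121) = (((bE t : ℕ) : ℤ) : ZMod 121) := by norm_cast
    have h3 := ZMod.intCast_mod (t.2.2.1 * aI t) 121
    rw [h2, h1]
    push_cast at h3 ⊢
    exact h3
  have e2 : ((gE t : ℕ) : ZMod 121) = ((t.2.2.2.1 : ℤ) : ZMod 121) * ((aI t : ℤ) : ZMod 121) *
      ((oi10 (wE t) : ℤ) : ZMod 121) := by
    have h0 : 0 ≤ (t.2.2.2.1 * aI t * oi10 (wE t)) % 121 := Int.emod_nonneg _ (by norm_num)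
    have h1 : ((gE t : ℕ) : ℤ) = (t.2.2.2.1 * aI t * oi10 (wE t)) % 121 := by unfold gE; omega
    have h2 : ((gE t : ℕ) : ZMod 121) = (((gE t : ℕ) : ℤ) : ZMod 121) := by norm_cast
    have h3 := ZMod.intCast_mod (t.2.2.2.1 * aI t * oi10 (wE t)) 121
    rw [h2, h1]
    push_cast at h3 ⊢
    exact h3
  have e3 : ((lE t : ℤ) : ZMod 121) = (((t.2.1 : ℤ) : ZMod 121) * ((t.2.2.2.2 : ℤ) : ZMod 121) -
      11 * ((t.2.2.1 : ℤ) : ZMod 121) * ((t.2.2.2.1 : ℤ) : ZMod 121)) * ((aI t : ℤ) : ZMod 121) ^ 2 := by
    unfold lE
    have h3 := ZMod.intCast_mod ((t.2.1 * t.2.2.2.2 - 11 * t.2.2.1 * t.2.2.2.1) * aI t ^ 2) 121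
    push_cast at h3 ⊢
    exact h3
  -- residue of `lE` modulo 11
  have hlo : (lE t * oi10 (wE t)) % 11 = 1 := by
    have hl : lE t % 11 ≠ 0 := by
      intro h0
      obtain ⟨q, hq⟩ : ∃ q, lE t = 11 * q := ⟨lE t / 11, by omega⟩
      have h11 : (11 : ZMod 121) * 11 = 0 := by decide
      have hz : (((11 * (t.2.1 * t.2.2.2.2) : ℤ)) : ZMod 121) = 0 := by
        rw [hq] at e3
        push_cast at e3 ⊢
        linear_combination ((((t.2.2.1 : ℤ) : ZMod 121) * ((t.2.2.2.1 : ℤ) : ZMod 121)) +
          ((q : ℤ) : ZMod 121) * ((t.2.1 : ℤ) : ZMod 121) ^ 2) * h11 -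
          11 * ((t.2.1 : ℤ) : ZMod 121) ^ 2 * e3 -
          11 * (((t.2.1 : ℤ) : ZMod 121) * ((t.2.2.2.2 : ℤ) : ZMod 121) -
            11 * ((t.2.2.1 : ℤ) : ZMod 121) * ((t.2.2.2.1 : ℤ) : ZMod 121)) *
            (((t.2.1 : ℤ) : ZMod 121) * ((aI t : ℤ) : ZMod 121) + 1) * hI
      have hz2 := (ZMod.intCast_zmod_eq_zero_iff_dvd _ 121).1 hz
      have hz3 : (11 : ℤ) ∣ t.2.1 * t.2.2.2.2 := by
        push_cast at hz2
        generalize t.2.1 * t.2.2.2.2 = z at hz2 ⊢
        omega
      have hp : Prime (11 : ℤ) := by norm_num
      rcases hp.dvd_or_dvd hz3 with h | h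
      · exact ha (Int.emod_eq_zero_of_dvd h)
      · exact hd (Int.emod_eq_zero_of_dvd h)
    have hl2 : 0 ≤ lE t % 11 := Int.emod_nonneg _ (by norm_num)
    have hl3 : lE t % 11 < 11 := Int.emod_lt_of_pos _ (by norm_num)
    rw [Int.mul_emod]
    unfold wE
    generalize lE t % 11 = r at hl hl2 hl3 ⊢
    interval_cases r
    · exact absurd rfl hl
    all_goals decide
  have e4 : ((lE t : ℤ) : ZMod 121) * ((oi10 (wE t) : ℤ) : ZMod 121) = 1 + 11 * (mE t : ZMod 121) := by
    have h0 : 0 ≤ (lE t * oi10 (wE t)) % 121 := Int.emod_nonneg _ (by norm_num)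
    have h1 : (lE t * oi10 (wE t)) % 121 = 1 + 11 * ((mE t : ℕ) : ℤ) := by unfold mE; omega
    have h3 := ZMod.intCast_mod (lE t * oi10 (wE t)) 121
    rw [show (((121 : ℕ) : ℤ)) = 121 from rfl, h1] at h3
    push_cast at h3 ⊢
    exact h3.symm
  generalize ((t.2.1 : ℤ) : ZMod 121) = a at *
  generalize ((t.2.2.1 : ℤ) : ZMod 121) = b at *
  generalize ((t.2.2.2.1 : ℤ) : ZMod 121) = c at *
  generalize ((t.2.2.2.2 : ℤ) : ZMod 121) = d at *
  generalize ((aI t : ℤ) : ZMod 121) = I at *
  have ho := om_oi (wE t)
  generalize ((om10 (wE t) : ℤ) : ZMod 121) = o at *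
  generalize ((oi10 (wE t) : ℤ) : ZMod 121) = oi at *
  generalize ((lE t : ℤ) : ZMod 121) = l at *
  generalize ((mE t : ℕ) : ZMod 121) = m at *
  rw [e1, e2]
  refine ⟨by linear_combination -b * hI, ?_, ?_⟩
  · linear_combination (-c) * hI - c * I * a * ho
  · linear_combination (-d * (a * I + 1)) * hI - a * e3 - (l * a + 11 * b * c * I ^ 2 * a) * ho + o * a * e4

private theorem ew0 : ∀ w : Fin 10, (if om10 w % 11 = 1 then 0 else if om10 w % 11 = 2 then 1 else if om10 w % 11 = 4 then 2
  else if om10 w % 11 = 8 then 3 else if om10 w % 11 = 5 then 4 else if om10 w % 11 = 10 then 5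
  else if om10 w % 11 = 9 then 6 else if om10 w % 11 = 7 then 7 else if om10 w % 11 = 3 then 8 else 9 : Fin 10) = w := by
  decide

/-- uniqueness of the normal form -/
private theorem nf_unique {t : Tm} (ha : t.2.1 % 11 ≠ 0) (w : Fin 10) {m g b : ℕ} (hm : m < 11) (hg : g < 121)
    (hb : b < 121)
    (h1 : ((t.2.2.1 : ℤ) : ZMod 121) = (b : ZMod 121) * ((t.2.1 : ℤ) : ZMod 121))
    (h2 : ((t.2.2.2.1 : ℤ) : ZMod 121) = (g : ZMod 121) * ((om10 w : ℤ) : ZMod 121) * ((t.2.1 : ℤ) : ZMod 121))
    (h3 : ((t.2.2.2.2 : ℤ) : ZMod 121) = (1 + 11 * ((m : ZMod 121) + (g : ZMod 121) * (b : ZMod 121))) *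
      ((om10 w : ℤ) : ZMod 121) * ((t.2.1 : ℤ) : ZMod 121)) :
    wE t = w ∧ mE t = m ∧ gE t = g ∧ bE t = b := by
  have hI := aI_mul ha
  have ho := om_oi w
  have eb : bE t = b := by
    unfold bE
    refine val_of hb ?_
    push_cast
    rw [h1]
    linear_combination (b : ZMod 121) * hI
  have el : ((lE t : ℤ) : ZMod 121) = (1 + 11 * (m : ZMod 121)) * ((om10 w : ℤ) : ZMod 121) := by
    have e3 : ((lE t : ℤ) : ZMod 121) = (((t.2.1 : ℤ) : ZMod 121) * ((t.2.2.2.2 : ℤ) : ZMod 121) -
        11 * ((t.2.2.1 : ℤ) : ZMod 121) * ((t.2.2.2.1 : ℤ) : ZMod 121)) * ((aI t : ℤ) : ZMod 121) ^ 2 := by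
      unfold lE
      have h3 := ZMod.intCast_mod ((t.2.1 * t.2.2.2.2 - 11 * t.2.2.1 * t.2.2.2.1) * aI t ^ 2) 121
      push_cast at h3 ⊢
      exact h3
    rw [e3, h1, h2, h3]
    linear_combination ((1 + 11 * (m : ZMod 121)) * ((om10 w : ℤ) : ZMod 121)) *
      (((t.2.1 : ℤ) : ZMod 121) * ((aI t : ℤ) : ZMod 121) + 1) * hI
  have h0l : 0 ≤ lE t := Int.emod_nonneg _ (by norm_num)
  have h1l : lE t < 121 := Int.emod_lt_of_pos _ (by norm_num)
  have el2 : lE t % 11 = om10 w % 11 := by
    have h : (((lE t - (1 + 11 * (m : ℤ)) * om10 w : ℤ)) : ZMod 121) = 0 := by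
      push_cast
      rw [el]
      ring
    have h' := (ZMod.intCast_zmod_eq_zero_iff_dvd _ 121).1 h
    push_cast at h'
    have : lE t - (1 + 11 * (m : ℤ)) * om10 w = lE t - om10 w - 11 * ((m : ℤ) * om10 w) := by ring
    rw [this] at h'
    generalize (m : ℤ) * om10 w = z at h'
    omega
  have ew : wE t = w := by
    unfold wE
    rw [el2]
    exact ew0 w
  have em : mE t = m := by
    have h := val_of (z := lE t * oi10 w) (n := 1 + 11 * m) (by omega) (by
      push_cast
      rw [el]
      linear_combination (1 + 11 * (m : ZMod 121)) * ho)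
    have h0 : 0 ≤ (lE t * oi10 w) % 121 := Int.emod_nonneg _ (by norm_num)
    unfold mE
    rw [ew]
    omega
  have eg : gE t = g := by
    unfold gE
    rw [ew]
    refine val_of hg ?_
    push_cast
    rw [h2]
    linear_combination (g : ZMod 121) * ((om10 w : ℤ) : ZMod 121) * ((oi10 w : ℤ) : ZMod 121) * hI +
      (g : ZMod 121) * ho
  exact ⟨ew, em, eg, eb⟩

/-- the identities of the product, in a commutative ring with `11 * 11 = 0` -/
private theorem prod_ids {R : Type} [CommRing R] {a b c d a' b' c' d' β γ m ω β' γ' m' ω' i e : R}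
    (h11 : (11 : R) * 11 = 0) (hi : ω' * i = 1) (he : e = β * ω')
    (h1 : b = β * a) (h2 : c = γ * ω * a) (h3 : d = (1 + 11 * (m + γ * β)) * ω * a)
    (h1' : b' = β' * a') (h2' : c' = γ' * ω' * a') (h3' : d' = (1 + 11 * (m' + γ' * β')) * ω' * a') :
    a * b' + b * d' = (β' + e * (1 + 11 * m') - 11 * (e * e) * γ') * (a * a' + 11 * b * c') ∧
    c * a' + d * c' = (γ * i + (1 + 11 * m) * γ' - 11 * e * (γ' * γ')) * (ω * ω') * (a * a' + 11 * b * c') ∧
    11 * c * b' + d * d' = (1 + 11 * ((m + m' - 2 * e * γ') +
      (γ * i + (1 + 11 * m) * γ' - 11 * e * (γ' * γ')) * (β' + e * (1 + 11 * m') - 11 * (e * e) * γ'))) *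
      (ω * ω') * (a * a' + 11 * b * c') := by
  subst he h1 h2 h3 h1' h2' h3'
  refine ⟨?_, ?_, ?_⟩
  · linear_combination (-(a * a') * ((β * ω') ^ 2 * γ' * m' - (β * ω') ^ 3 * γ' ^ 2)) * h11
  · linear_combination (-(a * a' * ω) * γ * (1 + 11 * (β * ω') * γ')) * hi -
      a * a' * ω * ((β * ω') * m * γ' ^ 2 * ω' - (β * ω') ^ 2 * γ' ^ 3 * ω') * h11
  · linear_combination (a * a' * ω * ω' * ((m + γ * β) * (m' + γ' * β') - ((β * ω') * γ' *
      ((m + m' - 2 * (β * ω') * γ') + (γ * i + (1 + 11 * m) * γ' - 11 * (β * ω') * (γ' * γ')) *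
        (β' + (β * ω') * (1 + 11 * m') - 11 * ((β * ω') * (β * ω')) * γ')) +
      (γ * i + γ') * ((β * ω') * m' - (β * ω') ^ 2 * γ') + (m * γ' - (β * ω') * γ' ^ 2) * (β' + β * ω') +
      11 * (m * γ' - (β * ω') * γ' ^ 2) * ((β * ω') * m' - (β * ω') ^ 2 * γ')))) * h11 -
      11 * a * a' * ω * γ * (β' + β * ω') * hi

private theorem unit_ne {a : ℤ} (h : IsUnit ((a : ℤ) : ZMod 121)) : a % 11 ≠ 0 := by
  rw [ZMod.coe_int_isUnit_iff_isCoprime] at h
  intro h0
  obtain ⟨u, v, huv⟩ := h
  obtain ⟨q, hq⟩ : ∃ q, a = 11 * q := ⟨a / 11, by omega⟩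
  have : (11 : ℤ) ∣ 1 := ⟨u * 11 + v * q, by rw [← huv, hq]; push_cast; ring⟩
  norm_num at this

private theorem m121 (n : ℕ) : ((n % 121 : ℕ) : ZMod 121) = (n : ZMod 121) := ZMod.natCast_mod n 121

/-- eleven times a residue modulo eleven -/
private theorem el_cast (n : ℕ) : (11 : ZMod 121) * ((n % 11 : ℕ) : ZMod 121) = 11 * (n : ZMod 121) := by
  have h : n = 11 * (n / 11) + n % 11 := by omega
  have h2 : (n : ZMod 121) = 11 * ((n / 11 : ℕ) : ZMod 121) + ((n % 11 : ℕ) : ZMod 121) := by
    conv_lhs => rw [h]
    push_cast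
    ring
  rw [h2]
  have h11 : (11 : ZMod 121) * 11 = 0 := by decide
  linear_combination (-((n / 11 : ℕ) : ZMod 121)) * h11

theorem comb_cd {t t' : Tm} (h : Gd t) (h' : Gd t') : comb (cd t) (cd t') = cd (mulT t t') := by
  have h11 : (11 : ZMod 121) * 11 = 0 := by decide
  obtain ⟨n1, n2, n3⟩ := nf_of h
  obtain ⟨p1, p2, p3⟩ := nf_of h'
  have hi := om_oi (wE t')
  -- the entries
  set x := cd t with hx
  set y := cd t' with hy
  have hce : ((ce x y : ℕ) : ZMod 121) = (bE t : ZMod 121) * ((om10 (wE t') : ℤ) : ZMod 121) := by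
    have : ce x y = (fb x * mN (fw y)) % 121 := rfl
    rw [this, m121, hx, hy, fb_cd, fw_cd]
    push_cast
    rw [mN_eq]
  have hr : (11 : ZMod 121) * ((cr x y : ℕ) : ZMod 121) = 11 * ((ce x y : ℕ) : ZMod 121) := el_cast _
  have hrl : cr x y < 11 := Nat.mod_lt _ (by norm_num)
  have h0 : (11 : ZMod 121) * ((c0 y : ℕ) : ZMod 121) = 11 * (gE t' : ZMod 121) := by
    have := el_cast (fg y)
    rw [hy, fg_cd] at this
    have e : c0 y = gE t' % 11 := by
      show fg y % 11 = _
      rw [hy, fg_cd]
    rw [e]
    exact this
  have hm : (11 : ZMod 121) * ((cm x y : ℕ) : ZMod 121) = 11 * ((mE t : ZMod 121) + (mE t' : ZMod 121) -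
      2 * ((bE t : ZMod 121) * ((om10 (wE t') : ℤ) : ZMod 121)) * (gE t' : ZMod 121)) := by
    have e : cm x y = ((fm x + fm y) + (22 - 2 * cr x y) * c0 y) % 11 := rfl
    rw [e, el_cast, hx, hy, fm_cd, fm_cd, ← hx, ← hy]
    push_cast [Nat.cast_sub (show 2 * cr x y ≤ 22 by omega)]
    linear_combination (2 * ((c0 y : ℕ) : ZMod 121)) * h11 - 2 * ((c0 y : ℕ) : ZMod 121) * hr -
      2 * ((ce x y : ℕ) : ZMod 121) * h0 - 22 * (gE t' : ZMod 121) * hce
  have hg : ((cg x y : ℕ) : ZMod 121) = (gE t : ZMod 121) * ((oi10 (wE t') : ℤ) : ZMod 121) +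
      (1 + 11 * (mE t : ZMod 121)) * (gE t' : ZMod 121) - 11 * ((bE t : ZMod 121) * ((om10 (wE t') : ℤ) : ZMod 121)) *
        ((gE t' : ZMod 121) * (gE t' : ZMod 121)) := by
    have e : cg x y = (fg x * oN (fw y) + ((1 + 11 * fm x) * fg y + 11 * (11 - cr x y) * (c0 y * c0 y))) % 121 := rfl
    rw [e, m121, hx, hy, fg_cd, fw_cd, fm_cd, fg_cd, ← hx, ← hy]
    push_cast [Nat.cast_sub (show cr x y ≤ 11 by omega)]
    rw [oN_eq']
    linear_combination (((c0 y : ℕ) : ZMod 121) * ((c0 y : ℕ) : ZMod 121)) * h11 -
      ((c0 y : ℕ) : ZMod 121) * ((c0 y : ℕ) : ZMod 121) * hr -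
      ((ce x y : ℕ) : ZMod 121) * (((c0 y : ℕ) : ZMod 121) + (gE t' : ZMod 121)) * h0 -
      11 * (gE t' : ZMod 121) * (gE t' : ZMod 121) * hce
  have hb : ((cb x y : ℕ) : ZMod 121) = (bE t' : ZMod 121) + ((bE t : ZMod 121) * ((om10 (wE t') : ℤ) : ZMod 121)) *
      (1 + 11 * (mE t' : ZMod 121)) - 11 * (((bE t : ZMod 121) * ((om10 (wE t') : ℤ) : ZMod 121)) *
        ((bE t : ZMod 121) * ((om10 (wE t') : ℤ) : ZMod 121))) * (gE t' : ZMod 121) := by
    have e : cb x y = (fb y + (ce x y * (1 + 11 * fm y) + 11 * (121 - cr x y * cr x y) * c0 y)) % 121 := rfl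
    have hl2 : cr x y * cr x y ≤ 121 := by nlinarith
    rw [e, m121, hx, hy, fb_cd, fm_cd, ← hx, ← hy]
    push_cast [Nat.cast_sub hl2]
    linear_combination 11 * ((c0 y : ℕ) : ZMod 121) * h11 + (1 + 11 * (mE t' : ZMod 121)) * hce -
      ((c0 y : ℕ) : ZMod 121) * (((cr x y : ℕ) : ZMod 121) + ((ce x y : ℕ) : ZMod 121)) * hr -
      ((ce x y : ℕ) : ZMod 121) ^ 2 * h0 - 11 * (gE t' : ZMod 121) * (((ce x y : ℕ) : ZMod 121) +
        (bE t : ZMod 121) * ((om10 (wE t') : ℤ) : ZMod 121)) * hce
  obtain ⟨q1, q2, q3⟩ := prod_ids h11 hi rfl n1 n2 n3 p1 p2 p3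
  have hA : (mulT t t').2.1 % 11 ≠ 0 := by
    show (t.2.1 * t'.2.1 + 11 * t.2.2.1 * t'.2.2.2.1) % 11 ≠ 0
    intro h0
    have hd : (11 : ℤ) ∣ t.2.1 * t'.2.1 := by
      have : t.2.1 * t'.2.1 + 11 * t.2.2.1 * t'.2.2.2.1 = t.2.1 * t'.2.1 + 11 * (t.2.2.1 * t'.2.2.2.1) := by ring
      rw [this] at h0
      generalize t.2.1 * t'.2.1 = z at h0 ⊢
      generalize t.2.2.1 * t'.2.2.2.1 = z' at h0
      omega
    have hp : Prime (11 : ℤ) := by norm_num
    rcases hp.dvd_or_dvd hd with h1 | h1
    · exact h.1 (Int.emod_eq_zero_of_dvd h1)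
    · exact h'.1 (Int.emod_eq_zero_of_dvd h1)
  have hw2 := om_add (wE t) (wE t')
  obtain ⟨u1, u2, u3, u4⟩ := nf_unique (t := mulT t t') hA ⟨((wE t).val + (wE t').val) % 10, Nat.mod_lt _ (by norm_num)⟩
    (m := cm x y) (g := cg x y) (b := cb x y) (Nat.mod_lt _ (by norm_num)) (Nat.mod_lt _ (by norm_num))
    (Nat.mod_lt _ (by norm_num))
    (by
      show ((t.2.1 * t'.2.2.1 + t.2.2.1 * t'.2.2.2.2 : ℤ) : ZMod 121) =
        (cb x y : ZMod 121) * ((t.2.1 * t'.2.1 + 11 * t.2.2.1 * t'.2.2.2.1 : ℤ) : ZMod 121)
      push_cast
      rw [hb]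
      exact q1)
    (by
      show ((t.2.2.2.1 * t'.2.1 + t.2.2.2.2 * t'.2.2.2.1 : ℤ) : ZMod 121) = (cg x y : ZMod 121) * _ *
        ((t.2.1 * t'.2.1 + 11 * t.2.2.1 * t'.2.2.2.1 : ℤ) : ZMod 121)
      rw [hw2, hg]
      push_cast
      exact q2)
    (by
      show ((11 * t.2.2.2.1 * t'.2.2.1 + t.2.2.2.2 * t'.2.2.2.2 : ℤ) : ZMod 121) =
        (1 + 11 * ((cm x y : ZMod 121) + (cg x y : ZMod 121) * (cb x y : ZMod 121))) * _ *
        ((t.2.1 * t'.2.1 + 11 * t.2.2.1 * t'.2.2.2.1 : ℤ) : ZMod 121)
      have e : (1 + 11 * ((cm x y : ZMod 121) + (cg x y : ZMod 121) * (cb x y : ZMod 121)) : ZMod 121) =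
        1 + 11 * (cm x y : ZMod 121) + 11 * ((cg x y : ZMod 121) * (cb x y : ZMod 121)) := by ring
      rw [hw2, e, hm, hg, hb]
      push_cast
      rw [q3]
      ring)
  have e1 : rk (mulT t t').1 = cK x y := by
    have h1 := rk_eq (mulT t t').1
    have h2 : cK x y = (rk t.1 * rk t'.1) % 11 := by
      show (fK x * fK y) % 11 = _
      rw [hx, hy, fK_cd, fK_cd]
    have h3 : (((rk t.1 * rk t'.1 % 11 : ℕ)) : ℤ) = (t.1 * t'.1) % 11 := by
      push_cast
      rw [rk_eq, rk_eq, ← Int.mul_emod]
    rw [h2]
    have h4 : ((rk (mulT t t').1 : ℕ) : ℤ) = (t.1 * t'.1) % 11 := h1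
    omega
  have e2 : cw x y = ((wE t).val + (wE t').val) % 10 := by
    show (fw x + fw y) % 10 = _
    rw [hx, hy, fw_cd, fw_cd]
  unfold comb cd
  rw [u1, u2, u3, u4, e1, e2]

theorem Gd_mul {t t' : Tm} (h : Gd t) (h' : Gd t') : Gd (mulT t t') := by
  have hp : Prime (11 : ℤ) := by norm_num
  constructor
  · show (t.2.1 * t'.2.1 + 11 * t.2.2.1 * t'.2.2.2.1) % 11 ≠ 0
    intro h0
    have hd : (11 : ℤ) ∣ t.2.1 * t'.2.1 := by
      have : t.2.1 * t'.2.1 + 11 * t.2.2.1 * t'.2.2.2.1 = t.2.1 * t'.2.1 + 11 * (t.2.2.1 * t'.2.2.2.1) := by ring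
      rw [this] at h0
      generalize t.2.1 * t'.2.1 = z at h0 ⊢
      generalize t.2.2.1 * t'.2.2.2.1 = z' at h0
      omega
    rcases hp.dvd_or_dvd hd with h1 | h1
    · exact h.1 (Int.emod_eq_zero_of_dvd h1)
    · exact h'.1 (Int.emod_eq_zero_of_dvd h1)
  · show (11 * t.2.2.2.1 * t'.2.2.1 + t.2.2.2.2 * t'.2.2.2.2) % 11 ≠ 0
    intro h0
    have hd : (11 : ℤ) ∣ t.2.2.2.2 * t'.2.2.2.2 := by
      have : 11 * t.2.2.2.1 * t'.2.2.1 + t.2.2.2.2 * t'.2.2.2.2 =
        t.2.2.2.2 * t'.2.2.2.2 + 11 * (t.2.2.2.1 * t'.2.2.1) := by ring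
      rw [this] at h0
      generalize t.2.2.2.2 * t'.2.2.2.2 = z at h0 ⊢
      generalize t.2.2.2.1 * t'.2.2.1 = z' at h0
      omega
    rcases hp.dvd_or_dvd hd with h1 | h1
    · exact h.2 (Int.emod_eq_zero_of_dvd h1)
    · exact h'.2 (Int.emod_eq_zero_of_dvd h1)

/-! ### Lists of codes -/

theorem lcd_eq (L : List Tm) (k : List ℕ → ℕ) : lcd L k = k (L.map cd) := by
  induction L generalizing k with
  | nil => rfl
  | cons t L ih =>
    show sq (tcode t) (fun c => lcd L fun A => k (c :: A)) = _
    rw [sq_eq, ih, tcode_eq]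
    rfl

theorem ap_eq (A B : List ℕ) : ap A B = A ++ B := by
  induction A with
  | nil => rfl
  | cons h A ih =>
    show h :: ap A B = _
    rw [ih]
    rfl

theorem mp_eq (f : ℕ → ℕ) (B : List ℕ) (k : List ℕ → ℕ) : mp f B k = k (B.map f) := by
  induction B generalizing k with
  | nil => rfl
  | cons t L ih =>
    show sq (f t) (fun c => mp f L fun A => k (c :: A)) = _
    rw [sq_eq, ih]
    rfl

theorem pr_eq (A B : List ℕ) (k : List ℕ → ℕ) : pr A B k = k (A.flatMap fun x => B.map (comb x)) := by
  induction A generalizing k with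
  | nil => rfl
  | cons x A ih =>
    show mp (comb x) B (fun L => pr A B fun L' => k (ap L L')) = _
    rw [mp_eq, ih, ap_eq, List.flatMap_cons]

/-- fields below their bounds -/
def Vd (c : ℕ) : Prop := ∃ K w m g b : ℕ, K < 11 ∧ w < 10 ∧ m < 11 ∧ g < 121 ∧ b < 121 ∧ c = mk K w m g b

theorem Vd.fields {c : ℕ} (h : Vd c) : fK c < 11 ∧ fw c < 10 ∧ fm c < 11 ∧ fg c < 121 ∧ fb c < 121 ∧
    mk (fK c) (fw c) (fm c) (fg c) (fb c) = c := by
  obtain ⟨K, w, m, g, b, h1, h2, h3, h4, h5, rfl⟩ := h
  rw [fK_mk (by omega), fw_mk (by omega) (by omega), fm_mk (by omega) (by omega) (by omega),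
    fg_mk (by omega) (by omega) (by omega) (by omega), fb_mk (by omega) (by omega) (by omega) (by omega)]
  exact ⟨h1, h2, h3, h4, h5, rfl⟩

theorem Vd_cd (t : Tm) : Vd (cd t) := ⟨_, _, _, _, _, rk_lt _, (wE t).isLt, mE_lt t, gE_lt t, bE_lt t, rfl⟩

theorem Vd_comb (x y : ℕ) : Vd (comb x y) :=
  ⟨_, _, _, _, _, Nat.mod_lt _ (by norm_num), Nat.mod_lt _ (by norm_num), Nat.mod_lt _ (by norm_num),
    Nat.mod_lt _ (by norm_num), Nat.mod_lt _ (by norm_num), rfl⟩

theorem Vd_scC (r : ℕ) {c : ℕ} (h : Vd c) : Vd (scC r c) := by
  obtain ⟨h1, h2, h3, h4, h5, -⟩ := h.fields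
  exact ⟨_, _, _, _, _, Nat.mod_lt _ (by norm_num), h2, h3, h4, h5, rfl⟩

theorem scC_cd (c : ℤ) (t : Tm) : scC (rk c) (cd t) = cd (c * t.1, t.2) := by
  unfold scC
  rw [fK_cd, fw_cd, fm_cd, fg_cd, fb_cd]
  have e : Nat.mod (Nat.mul (rk c) (rk t.1)) 11 = rk (c * t.1) := by
    show (rk c * rk t.1) % 11 = rk (c * t.1)
    have h3 : (((rk c * rk t.1 % 11 : ℕ)) : ℤ) = ((rk (c * t.1) : ℕ) : ℤ) := by
      push_cast
      rw [rk_eq, rk_eq, rk_eq, ← Int.mul_emod]
    exact_mod_cast h3
  rw [e]
  rfl

/-! ### Expressions -/

theorem gd_spec (e : Ex) : e.gd = true → ∀ t ∈ e.toL, Gd t := by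
  induction e with
  | lst L =>
    intro h
    induction L with
    | nil => intro t ht; exact absurd ht (List.not_mem_nil)
    | cons t L ih =>
      have h' : and (Nat.ble 1 (Nat.mul (rk t.2.1) (rk t.2.2.2.2))) (Ex.gd (.lst L)) = true := h
      rw [Bool.and_eq_true] at h'
      intro s hs
      rcases List.mem_cons.1 hs with rfl | hs
      · have h1 : 1 ≤ rk s.2.1 * rk s.2.2.2.2 := Nat.le_of_ble_eq_true h'.1
        have h2 := rk_eq s.2.1
        have h3 := rk_eq s.2.2.2.2
        constructor
        · intro h0
          rw [h0] at h2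
          have : rk s.2.1 = 0 := by exact_mod_cast h2
          rw [this] at h1
          omega
        · intro h0
          rw [h0] at h3
          have : rk s.2.2.2.2 = 0 := by exact_mod_cast h3
          rw [this] at h1
          omega
      · exact ih h'.2 s hs
  | app a b iha ihb =>
    intro h
    have h' : and (Ex.gd a) (Ex.gd b) = true := h
    rw [Bool.and_eq_true] at h'
    intro t ht
    rcases List.mem_append.1 ht with ht | ht
    · exact iha h'.1 t ht
    · exact ihb h'.2 t ht
  | scl c a iha =>
    intro h t ht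
    obtain ⟨s, hs, rfl⟩ := List.mem_map.1 ht
    exact iha h s hs
  | mul a b iha ihb =>
    intro h
    have h' : and (Ex.gd a) (Ex.gd b) = true := h
    rw [Bool.and_eq_true] at h'
    intro t ht
    obtain ⟨s, hs, ht⟩ := List.mem_flatMap.1 ht
    obtain ⟨s', hs', rfl⟩ := List.mem_map.1 ht
    exact Gd_mul (iha h'.1 s hs) (ihb h'.2 s' hs')

theorem gd_app {a b : Ex} (h : (Ex.app a b).gd = true) : a.gd = true ∧ b.gd = true := by
  have h' : and (Ex.gd a) (Ex.gd b) = true := h
  rwa [Bool.and_eq_true] at h'

theorem gd_mul {a b : Ex} (h : (Ex.mul a b).gd = true) : a.gd = true ∧ b.gd = true := by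
  have h' : and (Ex.gd a) (Ex.gd b) = true := h
  rwa [Bool.and_eq_true] at h'

theorem mul_map {L L' : List Tm} (h : ∀ t ∈ L, Gd t) (h' : ∀ t ∈ L', Gd t) :
    ((L.map cd).flatMap fun x => (L'.map cd).map (comb x)) = (mulL L L').map cd := by
  unfold mulL
  rw [List.map_flatMap, List.flatMap_map]
  refine List.flatMap_congr fun t ht => ?_
  rw [List.map_map, List.map_map]
  refine List.map_congr_left fun t' ht' => ?_
  exact comb_cd (h t ht) (h' t' ht')

theorem cods_eq (e : Ex) : e.gd = true → ∀ k : List ℕ → ℕ, cods e k = k (e.toL.map cd) := by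
  induction e with
  | lst L => intro _ k; exact lcd_eq L k
  | app a b iha ihb =>
    intro h k
    obtain ⟨ha, hb⟩ := gd_app h
    show cods a (fun A => cods b fun B => k (ap A B)) = _
    rw [iha ha, ihb hb, ap_eq, ← List.map_append]
    rfl
  | scl c a iha =>
    intro h k
    show cods a (fun A => mp (scC (rk c)) A k) = _
    rw [iha h, mp_eq, List.map_map]
    show _ = k ((sclL c a.toL).map cd)
    unfold sclL
    rw [List.map_map]
    congr 1
    exact List.map_congr_left fun t _ => scC_cd c t
  | mul a b iha ihb =>
    intro h k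
    obtain ⟨ha, hb⟩ := gd_mul h
    show cods a (fun A => cods b fun B => pr A B k) = _
    rw [iha ha, ihb hb, pr_eq, mul_map (gd_spec a ha) (gd_spec b hb)]
    rfl

theorem cnt_eq (e : Ex) : e.cnt = e.toL.length := by
  induction e with
  | lst L =>
    induction L with
    | nil => rfl
    | cons t L ih =>
      show Nat.succ (Ex.cnt (.lst L)) = _
      rw [ih]
      rfl
  | app a b iha ihb =>
    show Ex.cnt a + Ex.cnt b = (a.toL ++ b.toL).length
    rw [iha, ihb, List.length_append]
  | scl c a iha =>
    show Ex.cnt a = (sclL c a.toL).length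
    unfold sclL
    rw [iha, List.length_map]
  | mul a b iha ihb =>
    show Ex.cnt a * Ex.cnt b = (mulL a.toL b.toL).length
    unfold mulL
    rw [iha, ihb, List.length_flatMap]
    simp

/-! ### Sums -/

/-- The value of a code. -/
noncomputable def vc (c : ℕ) : ℕ := vF (fK c) (fm c) (fg c) (fb c)

/-- The sum of a list of codes. -/
noncomputable def Sg (A : List ℕ) : ℕ := (A.map fun c => vc c * X338 ^ fw c).sum

private theorem X338_eq : X338 = 2 ^ 10140 := by
  unfold X338 X1
  show 1073741824 ^ 338 = 2 ^ 10140
  rw [show (1073741824 : ℕ) = 2 ^ 30 from by norm_num, ← pow_mul]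

private theorem shl_eq (v w : ℕ) : Nat.shiftLeft v (Nat.mul 10140 w) = v * X338 ^ w := by
  show v <<< (10140 * w) = _
  rw [Nat.shiftLeft_eq, X338_eq, ← pow_mul]

private theorem S10_eq (f : ℕ → ℕ) : S10 f = ∑ w ∈ Finset.range 10, f w := by
  have h : S10 f = f 0 + (f 1 + (f 2 + (f 3 + (f 4 + (f 5 + (f 6 + (f 7 + (f 8 + f 9)))))))) := rfl
  rw [h]
  simp only [Finset.sum_range_succ, Finset.sum_range_zero]
  ring

private theorem bsum_cons (w c : ℕ) (A : List ℕ) :
    bsum w (c :: A) = (if fw c = w then vc c else 0) + bsum w A := by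
  have h : bsum w (c :: A) = @Bool.rec (fun _ => ℕ) (bsum w A) (vc c + bsum w A) (Nat.beq (fw c) w) := rfl
  rw [h]
  cases hb : Nat.beq (fw c) w
  · rw [if_neg (Nat.ne_of_beq_eq_false hb), zero_add]
  · rw [if_pos (Nat.eq_of_beq_eq_true hb)]

private theorem ite_sum (f : ℕ → ℕ) {n : ℕ} (hn : n < 10) :
    ∑ w ∈ Finset.range 10, (if n = w then f w else 0) = f n := by
  rw [Finset.sum_ite_eq, if_pos (Finset.mem_range.2 hn)]

private theorem lsum_eq (A : List ℕ) (h : ∀ c ∈ A, Vd c) : lsum A = Sg A := by
  unfold lsum
  rw [S10_eq]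
  simp only [shl_eq]
  induction A with
  | nil => 
    have e : ∀ w, bsum w [] = 0 := fun w => rfl
    simp [e, Sg]
  | cons c A ih =>
    have ih' := ih fun d hd => h d (List.mem_cons_of_mem _ hd)
    have hc := (h c List.mem_cons_self).fields.2.1
    simp only [bsum_cons, add_mul, Finset.sum_add_distrib, ih']
    have e : ∑ w ∈ Finset.range 10, (if fw c = w then vc c else 0) * X338 ^ w = vc c * X338 ^ fw c := by
      rw [← ite_sum (fun w => vc c * X338 ^ w) hc]
      refine Finset.sum_congr rfl fun w _ => ?_
      split_ifs <;> simp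
    rw [e]
    rfl

private theorem fltc_eq (w : ℕ) (B : List ℕ) (k : List ℕ → ℕ) : fltc w B k = k (B.filter fun y => fw y = w) := by
  induction B generalizing k with
  | nil => rfl
  | cons y B ih =>
    have h : fltc w (y :: B) k = @Bool.rec (fun _ => ℕ) (fltc w B k) (fltc w B fun L => k (y :: L))
      (Nat.beq (fw y) w) := rfl
    rw [h]
    cases hb : Nat.beq (fw y) w
    · have := Nat.ne_of_beq_eq_false hb
      rw [List.filter_cons_of_neg (by simpa using this)]
      exact ih k
    · have := Nat.eq_of_beq_eq_true hb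
      rw [List.filter_cons_of_pos (by simpa using this)]
      exact ih _

private theorem cK_lt (x y : ℕ) : cK x y < 11 := Nat.mod_lt _ (by norm_num)
private theorem cw_lt (x y : ℕ) : cw x y < 10 := Nat.mod_lt _ (by norm_num)
private theorem cm_lt (x y : ℕ) : cm x y < 11 := Nat.mod_lt _ (by norm_num)
private theorem cg_lt (x y : ℕ) : cg x y < 121 := Nat.mod_lt _ (by norm_num)

private theorem isum_eq (x : ℕ) (B : List ℕ) : isum x B = (B.map fun y => vc (comb x y)).sum := by
  induction B with
  | nil => rfl
  | cons y B ih =>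
    have h : isum x (y :: B) = vF (cK x y) (cm x y) (cg x y) (cb x y) + isum x B := rfl
    have hv : vc (comb x y) = vF (cK x y) (cm x y) (cg x y) (cb x y) := by
      unfold vc comb
      have b1 := cK_lt x y
      have b2 := cw_lt x y
      have b3 := cm_lt x y
      have b4 := cg_lt x y
      rw [fK_mk (by omega), fm_mk (by omega) (by omega) (by omega), fg_mk (by omega) (by omega) (by omega) (by omega),
        fb_mk (by omega) (by omega) (by omega) (by omega)]
    rw [h, ih, List.map_cons, List.sum_cons, hv]

private theorem fw_comb (x y : ℕ) : fw (comb x y) = (fw x + fw y) % 10 := by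
  unfold comb
  have b1 := cK_lt x y
  have b2 := cw_lt x y
  rw [fw_mk (by omega) (by omega)]
  rfl

private theorem xsum_eq (w : ℕ) (A B : List ℕ) :
    xsum w A B = (A.map fun x => isum x B * X338 ^ ((fw x + w) % 10)).sum := by
  induction A with
  | nil => rfl
  | cons x A ih =>
    have h : xsum w (x :: A) B = Nat.shiftLeft (isum x B) (Nat.mul 10140 ((fw x + w) % 10)) + xsum w A B := rfl
    rw [h, ih, shl_eq]
    rfl

private theorem inner_eq (x : ℕ) (B : List ℕ) (h : ∀ y ∈ B, Vd y) :
    ∑ w ∈ Finset.range 10, ((B.filter fun y => fw y = w).map fun y => vc (comb x y)).sum *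
      X338 ^ ((fw x + w) % 10) = Sg (B.map (comb x)) := by
  induction B with
  | nil => simp [Sg]
  | cons y B ih =>
    have ih' := ih fun d hd => h d (List.mem_cons_of_mem _ hd)
    have hc := (h y List.mem_cons_self).fields.2.1
    have e : ∀ w, (((y :: B).filter fun y => fw y = w).map fun y => vc (comb x y)).sum *
        X338 ^ ((fw x + w) % 10) = (if fw y = w then vc (comb x y) * X338 ^ ((fw x + w) % 10) else 0) +
        ((B.filter fun y => fw y = w).map fun y => vc (comb x y)).sum * X338 ^ ((fw x + w) % 10) := by
      intro w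
      by_cases hw : fw y = w
      · rw [List.filter_cons_of_pos (by simpa using hw), if_pos hw, List.map_cons, List.sum_cons, add_mul]
      · rw [List.filter_cons_of_neg (by simpa using hw), if_neg hw, zero_add]
    simp only [e, Finset.sum_add_distrib, ih']
    rw [ite_sum (fun w => vc (comb x y) * X338 ^ ((fw x + w) % 10)) hc, ← fw_comb]
    rfl

private theorem Sg_append (A B : List ℕ) : Sg (A ++ B) = Sg A + Sg B := by
  unfold Sg
  rw [List.map_append, List.sum_append]

private theorem psum_eq (A B : List ℕ) (h : ∀ y ∈ B, Vd y) :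
    psum A B = Sg (A.flatMap fun x => B.map (comb x)) := by
  unfold psum
  rw [S10_eq]
  simp only [fltc_eq, xsum_eq]
  induction A with
  | nil => simp [Sg]
  | cons x A ih =>
    simp only [List.map_cons, List.sum_cons, Finset.sum_add_distrib, isum_eq] at ih ⊢
    rw [List.flatMap_cons, Sg_append, ← inner_eq x B h, ih]

private theorem scC_comp (r s c : ℕ) (h : Vd c) : scC r (scC s c) = scC (r * s % 11) c := by
  obtain ⟨h1, h2, h3, h4, h5, -⟩ := h.fields
  have e : ∀ K < 11, fK (mk K (fw c) (fm c) (fg c) (fb c)) = K ∧ fw (mk K (fw c) (fm c) (fg c) (fb c)) = fw c ∧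
      fm (mk K (fw c) (fm c) (fg c) (fb c)) = fm c ∧ fg (mk K (fw c) (fm c) (fg c) (fb c)) = fg c ∧
      fb (mk K (fw c) (fm c) (fg c) (fb c)) = fb c := fun K hK =>
    ⟨fK_mk (by omega), fw_mk (by omega) (by omega), fm_mk (by omega) (by omega) (by omega),
      fg_mk (by omega) (by omega) (by omega) (by omega), fb_mk (by omega) (by omega) (by omega) (by omega)⟩
  have h6 : Nat.mod (Nat.mul s (fK c)) 11 < 11 := Nat.mod_lt _ (by norm_num)
  obtain ⟨e1, e2, e3, e4, e5⟩ := e _ h6
  unfold scC
  rw [e1, e2, e3, e4, e5]
  congr 1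
  show r * (s * fK c % 11) % 11 = (r * s % 11) * fK c % 11
  rw [Nat.mul_mod, Nat.mod_mod, ← Nat.mul_mod, Nat.mul_mod (r * s % 11), Nat.mod_mod, ← Nat.mul_mod, mul_assoc]

private theorem mod_assoc (r a b : ℕ) : (r * a % 11) * b % 11 = r * (a * b % 11) % 11 := by
  have h1 : r * a % 11 * b ≡ r * a * b [MOD 11] := (Nat.mod_modEq (r * a) 11).mul_right b
  have h2 : r * (a * b % 11) ≡ r * (a * b) [MOD 11] := (Nat.mod_modEq (a * b) 11).mul_left r
  rw [mul_assoc] at h1
  exact h1.trans h2.symm

private theorem comb_scC (r x y : ℕ) (h : Vd x) : comb (scC r x) y = scC r (comb x y) := by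
  obtain ⟨h1, h2, h3, h4, h5, -⟩ := h.fields
  have h6 : Nat.mod (Nat.mul r (fK x)) 11 < 11 := Nat.mod_lt _ (by norm_num)
  have e1 : fK (scC r x) = Nat.mod (Nat.mul r (fK x)) 11 := fK_mk (by omega)
  have e2 : fw (scC r x) = fw x := fw_mk (by omega) (by omega)
  have e3 : fm (scC r x) = fm x := fm_mk (by omega) (by omega) (by omega)
  have e4 : fg (scC r x) = fg x := fg_mk (by omega) (by omega) (by omega) (by omega)
  have e5 : fb (scC r x) = fb x := fb_mk (by omega) (by omega) (by omega) (by omega)
  have b1 := cK_lt x y
  have b2 := cw_lt x y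
  have b3 := cm_lt x y
  have b4 := cg_lt x y
  have g1 : fK (comb x y) = cK x y := fK_mk (by omega)
  have g2 : fw (comb x y) = cw x y := fw_mk (by omega) (by omega)
  have g3 : fm (comb x y) = cm x y := fm_mk (by omega) (by omega) (by omega)
  have g4 : fg (comb x y) = cg x y := fg_mk (by omega) (by omega) (by omega) (by omega)
  have g5 : fb (comb x y) = cb x y := fb_mk (by omega) (by omega) (by omega) (by omega)
  have k1 : cK (scC r x) y = Nat.mod (Nat.mul r (fK (comb x y))) 11 := by
    rw [g1]
    unfold cK
    rw [e1]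
    exact mod_assoc r (fK x) (fK y)
  have k2 : cw (scC r x) y = cw x y := by unfold cw; rw [e2]
  have k0 : ce (scC r x) y = ce x y := by unfold ce; rw [e5]
  have k00 : cr (scC r x) y = cr x y := by unfold cr; rw [k0]
  have k3 : cm (scC r x) y = cm x y := by unfold cm; rw [e3, k00]
  have k4 : cg (scC r x) y = cg x y := by unfold cg; rw [e4, e3, k00]
  have k5 : cb (scC r x) y = cb x y := by unfold cb; rw [k0, k00]
  have hl : comb (scC r x) y = mk (cK (scC r x) y) (cw (scC r x) y) (cm (scC r x) y) (cg (scC r x) y)
    (cb (scC r x) y) := rfl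
  have hr : scC r (comb x y) = mk (Nat.mod (Nat.mul r (fK (comb x y))) 11) (fw (comb x y)) (fm (comb x y))
    (fg (comb x y)) (fb (comb x y)) := rfl
  rw [hl, hr, k1, k2, k3, k4, k5, g2, g3, g4, g5]

theorem sumE_eq (e : Ex) : e.gd = true → ∀ r : ℕ, sumE e r = Sg ((e.toL.map cd).map (scC r)) := by
  have vm : ∀ (L : List Tm) (r : ℕ), ∀ c ∈ (L.map cd).map (scC r), Vd c := by
    intro L r c hc
    obtain ⟨c', hc', rfl⟩ := List.mem_map.1 hc
    obtain ⟨t, -, rfl⟩ := List.mem_map.1 hc'
    exact Vd_scC r (Vd_cd t)
  induction e with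
  | lst L =>
    intro _ r
    show lcd L (fun A => mp (scC r) A lsum) = _
    rw [lcd_eq, mp_eq, lsum_eq _ (vm L r)]
    rfl
  | app a b iha ihb =>
    intro h r
    obtain ⟨ha, hb⟩ := gd_app h
    show sumE a r + sumE b r = _
    rw [iha ha, ihb hb, ← Sg_append, ← List.map_append, ← List.map_append]
    rfl
  | scl c a iha =>
    intro h r
    show sq (Nat.mod (Nat.mul r (rk c)) 11) (sumE a) = _
    rw [sq_eq, iha h]
    show Sg _ = Sg (((sclL c a.toL).map cd).map (scC r))
    unfold sclL
    rw [List.map_map, List.map_map, List.map_map]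
    congr 1
    refine List.map_congr_left fun t _ => ?_
    show scC (r * rk c % 11) (cd t) = scC r (cd (c * t.1, t.2))
    rw [← scC_cd, scC_comp r _ _ (Vd_cd t)]
  | mul a b iha ihb =>
    intro h r
    obtain ⟨ha, hb⟩ := gd_mul h
    show cods a (fun A => mp (scC r) A fun A' => cods b fun B => psum A' B) = _
    rw [cods_eq a ha, mp_eq, cods_eq b hb, psum_eq _ _ (fun y hy => by
      obtain ⟨t, -, rfl⟩ := List.mem_map.1 hy
      exact Vd_cd t)]
    congr 1
    show _ = ((mulL a.toL b.toL).map cd).map (scC r)
    rw [← mul_map (gd_spec a ha) (gd_spec b hb), List.map_flatMap, List.flatMap_map]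
    refine List.flatMap_congr fun x hx => ?_
    have hv : Vd x := by
      obtain ⟨t, -, rfl⟩ := List.mem_map.1 hx
      exact Vd_cd t
    have e : ∀ B : List ℕ, B.map (comb (scC r x)) = (B.map (comb x)).map (scC r) := fun B => by
      rw [List.map_map]
      exact List.map_congr_left fun y _ => comb_scC r x y hv
    exact e _

private theorem scC_one (c : ℕ) (h : Vd c) : scC 1 c = c := by
  obtain ⟨h1, -, -, -, -, h6⟩ := h.fields
  unfold scC
  have e : Nat.mod (Nat.mul 1 (fK c)) 11 = fK c := by
    show 1 * fK c % 11 = fK c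
    rw [one_mul, Nat.mod_eq_of_lt h1]
  rw [e, h6]

theorem sumE_one (e : Ex) (h : e.gd = true) : sumE e 1 = Sg (e.toL.map cd) := by
  rw [sumE_eq e h 1]
  congr 1
  conv_rhs => rw [← List.map_id (List.map cd e.toL)]
  refine List.map_congr_left fun c hc => ?_
  obtain ⟨t, -, rfl⟩ := List.mem_map.1 hc
  exact scC_one _ (Vd_cd t)

/-! ### Digits -/

/-- Binomials modulo eleven. -/
def cf (n i : ℕ) : ℕ := n.choose i % 11

private theorem Gt_eq : ∀ g < 121, Gt g = ∑ i ∈ Finset.range 13, cf g i * X1 ^ i := by
  decide +kernel

private theorem Zt_eq : ∀ b < 121, Zt b = ∑ j ∈ Finset.range 13, cf b j * X13 ^ j := by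
  decide +kernel

private theorem Mt_eq (m : ℕ) (h : m < 11) : 1 + m * X169 = ∑ k ∈ Finset.range 2, cf m k * X169 ^ k := by
  rw [Finset.sum_range_succ, Finset.sum_range_one]
  unfold cf
  rw [Nat.choose_zero_right, Nat.choose_one_right, Nat.mod_eq_of_lt h, pow_zero, pow_one]
  have e : (1 % 11 * 1 : ℕ) = 1 := rfl
  rw [e]

private theorem lt_pow (b n : ℕ) (f : ℕ → ℕ) (hf : ∀ i < n, f i < b) :
    ∑ i ∈ Finset.range n, f i * b ^ i < b ^ n := by
  induction n with
  | zero => simp
  | succ n ih =>
    rw [Finset.sum_range_succ, pow_succ]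
    have h1 := ih fun i hi => hf i (by omega)
    have h2 : (f n + 1) * b ^ n ≤ b * b ^ n := Nat.mul_le_mul_right _ (hf n (by omega))
    have h3 : (f n + 1) * b ^ n = f n * b ^ n + b ^ n := by ring
    have h4 : b * b ^ n = b ^ n * b := by ring
    omega

private theorem dig (b n : ℕ) (f : ℕ → ℕ) (hf : ∀ i < n, f i < b) (m : ℕ) (hm : m < n) :
    (∑ i ∈ Finset.range n, f i * b ^ i) / b ^ m % b = f m := by
  have hb : 0 < b := by have := hf m hm; omega
  obtain ⟨k, rfl⟩ : ∃ k, n = m + (k + 1) := ⟨n - m - 1, by omega⟩
  rw [Finset.sum_range_add]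
  have e : ∑ x ∈ Finset.range (k + 1), f (m + x) * b ^ (m + x) =
      b ^ m * (b * (∑ x ∈ Finset.range k, f (m + (x + 1)) * b ^ x) + f m) := by
    rw [Finset.sum_range_succ', mul_add, Finset.mul_sum, Finset.mul_sum, add_zero]
    congr 1
    · refine Finset.sum_congr rfl fun x _ => ?_
      rw [← add_assoc, pow_add, pow_add, pow_one]
      ring
    · ring
  rw [e, Nat.add_mul_div_left _ _ (pow_pos hb m),
    Nat.div_eq_of_lt (lt_pow b m f fun i hi => hf i (by omega)), zero_add, Nat.mul_add_mod]
  exact Nat.mod_eq_of_lt (hf m hm)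

private theorem swap (L : List ℕ) (n : ℕ) (F : ℕ → ℕ → ℕ) (c : ℕ → ℕ) :
    (L.map fun t => ∑ i ∈ Finset.range n, F t i * c i).sum =
      ∑ i ∈ Finset.range n, (L.map fun t => F t i).sum * c i := by
  induction L with
  | nil => simp
  | cons t L ih => simp only [List.map_cons, List.sum_cons, ih, add_mul, Finset.sum_add_distrib]

private noncomputable def PG (t : ℕ) : ℕ := ∑ i ∈ Finset.range 13, cf (fg t) i * X1 ^ i
private noncomputable def PZ (t : ℕ) : ℕ := ∑ j ∈ Finset.range 13, cf (fb t) j * X13 ^ j
private noncomputable def PM (t : ℕ) : ℕ := ∑ k ∈ Finset.range 2, cf (fm t) k * X169 ^ k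

private theorem val_eq {t : ℕ} (h : Vd t) : vc t = fK t * (PG t * (PM t * PZ t)) := by
  obtain ⟨h1, h2, h3, h4, h5, -⟩ := h.fields
  have e : vc t = fK t * (Gt (fg t) * ((1 + fm t * X169) * Zt (fb t))) := rfl
  rw [e, Gt_eq _ h4, Zt_eq _ h5, Mt_eq _ h3]
  rfl

private noncomputable def T4 (w k j i : ℕ) (t : ℕ) : ℕ :=
  if fw t = w then fK t * (cf (fg t) i * (cf (fm t) k * cf (fb t) j)) else 0
private noncomputable def T3 (w k j : ℕ) (t : ℕ) : ℕ :=
  if fw t = w then fK t * (PG t * (cf (fm t) k * cf (fb t) j)) else 0
private noncomputable def T2 (w k : ℕ) (t : ℕ) : ℕ :=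
  if fw t = w then fK t * (PG t * (cf (fm t) k * PZ t)) else 0
private noncomputable def T1 (w : ℕ) (t : ℕ) : ℕ :=
  if fw t = w then fK t * (PG t * (PM t * PZ t)) else 0

private theorem s3 (w k j : ℕ) (t : ℕ) :
    T3 w k j t = ∑ i ∈ Finset.range 13, T4 w k j i t * X1 ^ i := by
  unfold T3 T4 PG
  split_ifs
  · rw [Finset.sum_mul, Finset.mul_sum]
    exact Finset.sum_congr rfl fun i _ => by ring
  · simp

private theorem s2 (w k : ℕ) (t : ℕ) :
    T2 w k t = ∑ j ∈ Finset.range 13, T3 w k j t * X13 ^ j := by
  unfold T2 T3 PZ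
  split_ifs
  · rw [Finset.mul_sum, Finset.mul_sum, Finset.mul_sum]
    exact Finset.sum_congr rfl fun i _ => by ring
  · simp

private theorem s1 (w : ℕ) (t : ℕ) :
    T1 w t = ∑ k ∈ Finset.range 2, T2 w k t * X169 ^ k := by
  unfold T1 T2 PM
  split_ifs
  · rw [Finset.sum_mul, Finset.mul_sum, Finset.mul_sum]
    exact Finset.sum_congr rfl fun i _ => by ring
  · simp

private theorem s0 {t : ℕ} (h : Vd t) : vc t * X338 ^ fw t = ∑ w ∈ Finset.range 10, T1 w t * X338 ^ w := by
  rw [val_eq h, ← ite_sum (fun w => fK t * (PG t * (PM t * PZ t)) * X338 ^ w) h.fields.2.1]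
  refine Finset.sum_congr rfl fun w _ => ?_
  unfold T1
  split_ifs <;> simp

private theorem T4_le (w k j i : ℕ) {t : ℕ} (h : Vd t) : T4 w k j i t ≤ 10000 := by
  unfold T4
  split_ifs
  · have h1 : fK t ≤ 10 := by have := h.fields.1; omega
    have h2 : ∀ n i, cf n i ≤ 10 := fun n i => by
      have : cf n i < 11 := Nat.mod_lt _ (by norm_num)
      omega
    calc fK t * (cf (fg t) i * (cf (fm t) k * cf (fb t) j)) ≤ 10 * (10 * (10 * 10)) :=
          Nat.mul_le_mul h1 (Nat.mul_le_mul (h2 _ _) (Nat.mul_le_mul (h2 _ _) (h2 _ _)))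
      _ = 10000 := by norm_num
  · exact Nat.zero_le _

private theorem sum_le (L : List ℕ) (f : ℕ → ℕ) (c : ℕ) (h : ∀ t ∈ L, f t ≤ c) :
    (L.map f).sum ≤ L.length * c := by
  induction L with
  | nil => simp
  | cons t L ih =>
    rw [List.map_cons, List.sum_cons, List.length_cons, add_mul, one_mul]
    have := h t List.mem_cons_self
    have := ih fun s hs => h s (List.mem_cons_of_mem _ hs)
    omega

private theorem X13_pow : X1 ^ 13 = X13 := rfl
private theorem X169_pow : X13 ^ 13 = X169 := (pow_mul X1 13 13).symm
private theorem X338_pow : X169 ^ 2 = X338 := (pow_mul X1 169 2).symm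

private theorem dg_eq (L : List ℕ) (hV : ∀ c ∈ L, Vd c) (hL : L.length ≤ 65536) (w k j i : ℕ) (hw : w < 10)
    (hk : k < 2) (hj : j < 13) (hi : i < 13) : dg (Sg L) w k j i = (L.map fun t => T4 w k j i t).sum := by
  have b4 : ∀ w k j i, (L.map fun t => T4 w k j i t).sum < X1 := fun w k j i => by
    have h := sum_le L (fun t => T4 w k j i t) 10000 fun t ht => T4_le w k j i (hV t ht)
    unfold X1
    omega
  have b3 : ∀ w k j, (L.map fun t => T3 w k j t).sum < X13 := fun w k j => by
    have h := lt_pow X1 13 _ fun i _ => b4 w k j i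
    rw [← swap, X13_pow] at h
    simp only [← s3] at h
    exact h
  have b2 : ∀ w k, (L.map fun t => T2 w k t).sum < X169 := fun w k => by
    have h := lt_pow X13 13 _ fun j _ => b3 w k j
    rw [← swap, X169_pow] at h
    simp only [← s2] at h
    exact h
  have b1 : ∀ w, (L.map fun t => T1 w t).sum < X338 := fun w => by
    have h := lt_pow X169 2 _ fun k _ => b2 w k
    rw [← swap, X338_pow] at h
    simp only [← s1 w] at h
    exact h
  have e0 : Sg L = (L.map fun t => ∑ w ∈ Finset.range 10, T1 w t * X338 ^ w).sum := by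
    unfold Sg
    congr 1
    exact List.map_congr_left fun t ht => s0 (hV t ht)
  have d0 : Sg L / X338 ^ w % X338 = (L.map fun t => T1 w t).sum := by
    rw [e0, swap]
    exact dig X338 10 _ (fun w _ => b1 w) w (by omega)
  have d1 : (L.map fun t => T1 w t).sum / X169 ^ k % X169 = (L.map fun t => T2 w k t).sum := by
    simp only [s1 w]
    rw [swap]
    exact dig X169 2 _ (fun k _ => b2 w k) k hk
  have d2 : (L.map fun t => T2 w k t).sum / X13 ^ j % X13 = (L.map fun t => T3 w k j t).sum := by
    simp only [s2 w k]
    rw [swap]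
    exact dig X13 13 _ (fun j _ => b3 w k j) j hj
  have d3 : (L.map fun t => T3 w k j t).sum / X1 ^ i % X1 = (L.map fun t => T4 w k j i t).sum := by
    simp only [s3 w k j]
    rw [swap]
    exact dig X1 13 _ (fun i _ => b4 w k j i) i hi
  rw [← d3, ← d2, ← d1, ← d0]
  rfl

private theorem T4_cS (L : List Tm) (w : Fin 10) (k j i : ℕ) :
    (11 : ℤ) ∣ cS L w i k j - ((((L.map cd).map fun t => T4 w.val k j i t).sum : ℕ) : ℤ) := by
  induction L with
  | nil => simp [cS]
  | cons t L ih =>
    have e : cS (t :: L) w i k j = (if wE t = w then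
      (t.1 : ℤ) * (((gE t).choose i * (mE t).choose k * (bE t).choose j : ℕ) : ℤ) else 0) +
        cS L w i k j := rfl
    rw [e, List.map_cons, List.map_cons, List.sum_cons, Nat.cast_add]
    have h : (11 : ℤ) ∣ (if wE t = w then
      (t.1 : ℤ) * (((gE t).choose i * (mE t).choose k * (bE t).choose j : ℕ) : ℤ) else 0) -
        ((T4 w.val k j i (cd t) : ℕ) : ℤ) := by
      unfold T4
      rw [fw_cd, fK_cd, fg_cd, fm_cd, fb_cd]
      by_cases hw : wE t = w
      · rw [if_pos hw, if_pos (by rw [hw])]
        have hc : ∀ n i : ℕ, ((cf n i : ℕ) : ℤ) ≡ (n.choose i : ℤ) [ZMOD 11] := fun n i => by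
          unfold cf
          push_cast
          exact Int.mod_modEq _ _
        have hk : ((rk t.1 : ℕ) : ℤ) ≡ t.1 [ZMOD 11] := by
          rw [rk_eq]
          exact Int.mod_modEq _ _
        have h1 := hk.mul ((hc (gE t) i).mul ((hc (mE t) k).mul (hc (bE t) j)))
        have h2 := h1.dvd
        push_cast
        have e2 : t.1 * (((gE t).choose i : ℤ) * ((mE t).choose k : ℤ) * ((bE t).choose j : ℤ)) =
          t.1 * (((gE t).choose i : ℤ) * (((mE t).choose k : ℤ) * ((bE t).choose j : ℤ))) := by ring
        rw [e2]
        exact h2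
      · rw [if_neg hw, if_neg (fun h => hw (Fin.ext h))]
        simp
    have e3 : ∀ a b c d : ℤ, a + b - (c + d) = (a - c) + (b - d) := fun a b c d => by ring
    rw [e3]
    exact dvd_add h ih

private theorem M13_sub : ∀ t ∈ M13, t ∈ M13L ∧ t.2.1 < 2 ∧ t.2.2 < 13 ∧ t.1 < 13 := by
  decide +kernel

/-- The terms are good. -/
theorem fastE_gd (e : Ex) (want : Fin 10 → ℕ → ℕ → ℕ → ℤ) (h : fastE e want = true) : ∀ t ∈ e.toL, Gd t := by
  unfold fastE at h
  rw [Bool.and_eq_true, Bool.and_eq_true] at h
  exact gd_spec e h.1.1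

/-- The fast check is correct. -/
theorem cS_fastE (e : Ex) (want : Fin 10 → ℕ → ℕ → ℕ → ℤ) (h : fastE e want = true) :
    ∀ w : Fin 10, ∀ t ∈ M13, (11 : ℤ) ∣ cS e.toL w t.1 t.2.1 t.2.2 - want w t.1 t.2.1 t.2.2 := by
  intro w t ht
  unfold fastE at h
  rw [Bool.and_eq_true, Bool.and_eq_true, sq_eq] at h
  obtain ⟨⟨hgd, hcn⟩, h⟩ := h
  rw [sumE_one e hgd] at h
  have hcnt : e.toL.length ≤ 65536 := by
    rw [← cnt_eq]
    exact Nat.le_of_ble_eq_true hcn
  unfold chk at h
  rw [List.all_eq_true] at h
  have h3 := h w (by fin_cases w <;> simp)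
  rw [List.all_eq_true] at h3
  obtain ⟨m1, m2, m3, m4⟩ := M13_sub t ht
  have h4 := Nat.eq_of_beq_eq_true (h3 t m1)
  have hV : ∀ c ∈ e.toL.map cd, Vd c := by
    intro c hc
    obtain ⟨s, -, rfl⟩ := List.mem_map.1 hc
    exact Vd_cd s
  rw [dg_eq (e.toL.map cd) hV (by rwa [List.length_map]) _ _ _ _ w.isLt m2 m3 m4] at h4
  have h7 := T4_cS e.toL w t.2.1 t.2.2 t.1
  have h8 : ((((e.toL.map cd).map fun s => T4 w.val t.2.1 t.2.2 t.1 s).sum % 11 : ℕ) : ℤ) =
      want w t.1 t.2.1 t.2.2 % 11 := by
    rw [← rk_eq, ← h4]
    rfl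
  have h9 : (11 : ℤ) ∣ ((((e.toL.map cd).map fun s => T4 w.val t.2.1 t.2.2 t.1 s).sum : ℕ) : ℤ) -
      want w t.1 t.2.1 t.2.2 := by
    generalize ((e.toL.map cd).map fun s => T4 w.val t.2.1 t.2.2 t.1 s).sum = S at h8 ⊢
    omega
  have e1 : cS e.toL w t.1 t.2.1 t.2.2 - want w t.1 t.2.1 t.2.2 =
      (cS e.toL w t.1 t.2.1 t.2.2 - ((((e.toL.map cd).map fun s => T4 w.val t.2.1 t.2.2 t.1 s).sum : ℕ) : ℤ)) +
      (((((e.toL.map cd).map fun s => T4 w.val t.2.1 t.2.2 t.1 s).sum : ℕ) : ℤ) - want w t.1 t.2.1 t.2.2) := by
    ring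
  rw [e1]
  exact dvd_add h7 h9

end Pool.Agent.Helper81.P11
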