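import Pool.Agent.Helper81.P11.Wx

/-!
# Project P11: the certificates of `V`, row 1
-/

set_option autoImplicit false
set_option maxRecDepth 100000

namespace Pool.Agent.Helper81.P11

open Pool.Agent.Helper84.P11 Pool.Agent.Helper4.P11

private theorem t0 : fastE (bX VW (mVM 1) 1 0) (fun w a k j => if (1 : Fin 3) = 0 ∧ w = 0 then
    (if (a, k, j) = (1, 0, 11) ∨ (a, k, j) = (11, 0, 1) then 1 else 0) else 0) = true := by
  decide +kernel

private theorem t1 : fastE (bX VW (mVM 1) 1 1) (fun w a k j => if (1 : Fin 3) = 1 ∧ w = 0 then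
    (if (a, k, j) = (1, 0, 11) ∨ (a, k, j) = (11, 0, 1) then 1 else 0) else 0) = true := by
  decide +kernel

private theorem t2 : fastE (bX VW (mVM 1) 1 2) (fun w a k j => if (1 : Fin 3) = 2 ∧ w = 0 then
    (if (a, k, j) = (1, 0, 11) ∨ (a, k, j) = (11, 0, 1) then 1 else 0) else 0) = true := by
  decide +kernel

theorem ceV1 (f : Fin 3) : ∀ w : Fin 10, ∀ t ∈ M13, (11 : ℤ) ∣ cS (BVM 1 f) w t.1 t.2.1 t.2.2 -
    (if (1 : Fin 3) = f ∧ w = 0 then (if t = (1, 0, 11) ∨ t = (11, 0, 1) then 1 else 0) else 0) := by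
  unfold BVM
  rw [← bX_toL]
  fin_cases f
  · exact cS_fastE _ _ t0
  · exact cS_fastE _ _ t1
  · exact cS_fastE _ _ t2

/-- The terms of the row are good. -/
theorem gdV1 (f : Fin 3) : ∀ t ∈ BVM 1 f, Gd t := by
  unfold BVM
  rw [← bX_toL]
  fin_cases f
  · exact fastE_gd _ _ t0
  · exact fastE_gd _ _ t1
  · exact fastE_gd _ _ t2

end Pool.Agent.Helper81.P11
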