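import Pool.Agent.Helper4.P11.StD
import Pool.Agent.Helper81.P11.M_CeV0
import Pool.Agent.Helper81.P11.M_CeV1
import Pool.Agent.Helper81.P11.M_CeV2

/-!
# Project P11: the certificates of `V`
-/

set_option autoImplicit false

namespace Pool.Agent.Helper81.P11

open Pool.Agent.Helper84.P11 Pool.Agent.Helper4.P11

/-- Module CEV. -/
theorem hCeV : TCeV := by
  intro i f w t ht
  fin_cases i
  · exact ceV0 f w t ht
  · exact ceV1 f w t ht
  · exact ceV2 f w t ht

end Pool.Agent.Helper81.P11
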